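import Mathlib
import Pool.Agent.helper7.OC.Defs

/-!
# OC, BB3d: the identity of two convolutions of four characters
-/

set_option autoImplicit false

open Finset

namespace Pool.Agent.helper7.OC

/-- The values at the powers of `p`, as a power series. -/
noncomputable def bb3d_loc (p : ℕ) (f : ArithmeticFunction ℝ) : PowerSeries ℝ :=
  PowerSeries.mk fun k => f (p ^ k)

theorem bb3d_loc_mul (p : ℕ) (hp : p.Prime) (f g : ArithmeticFunction ℝ) :
    bb3d_loc p (f * g) = bb3d_loc p f * bb3d_loc p g := by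
  ext k
  rw [PowerSeries.coeff_mul]
  simp only [bb3d_loc, PowerSeries.coeff_mk]
  rw [ArithmeticFunction.mul_apply, Nat.sum_divisorsAntidiagonal (f := fun a b => f a * g b),
    Nat.divisors_prime_pow hp, sum_map,
    Finset.Nat.sum_antidiagonal_eq_sum_range_succ_mk]
  refine sum_congr rfl fun i hi => ?_
  simp only [Function.Embedding.coeFn_mk]
  rw [mem_range] at hi
  rw [Nat.pow_div (by omega) hp.pos]

/-- completely multiplicative -/
def bb3d_CM (ψ : ℕ → ℝ) : Prop := ψ 1 = 1 ∧ ∀ m n, ψ (m * n) = ψ m * ψ n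

theorem RC.cm {q : ℕ} {ψ : ℕ → ℝ} (h : RC q ψ) : bb3d_CM ψ := ⟨h.one, h.mul⟩

theorem bb3d_CM.mul {ψ φ : ℕ → ℝ} (h : bb3d_CM ψ) (h' : bb3d_CM φ) : bb3d_CM fun n => ψ n * φ n :=
  ⟨by simp [h.1, h'.1], fun m n => by simp only [h.2, h'.2]; ring⟩

theorem bb3d_prin (q : ℕ) : bb3d_CM (prin q) := by
  refine ⟨by simp [prin], fun m n => ?_⟩
  unfold prin
  by_cases h1 : m.Coprime q
  · by_cases h2 : n.Coprime q
    · rw [if_pos (Nat.Coprime.mul_left h1 h2), if_pos h1, if_pos h2, mul_one]
    · rw [if_neg fun h => h2 (Nat.Coprime.coprime_mul_left h), if_neg h2, mul_zero]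
  · rw [if_neg fun h => h1 (Nat.Coprime.coprime_mul_right h), if_neg h1, zero_mul]

theorem bb3d_CM.pow {ψ : ℕ → ℝ} (h : bb3d_CM ψ) (p k : ℕ) : ψ (p ^ k) = ψ p ^ k := by
  induction k with
  | zero => simp [h.1]
  | succ k ih => rw [pow_succ, h.2, ih, pow_succ]

theorem bb3d_mult {ψ : ℕ → ℝ} (h : bb3d_CM ψ) : (toAF ψ).IsMultiplicative := by
  constructor
  · show (if (1 : ℕ) = 0 then (0 : ℝ) else ψ 1) = 1
    simp [h.1]
  · intro m n _
    show (if m * n = 0 then (0 : ℝ) else ψ (m * n)) = (if m = 0 then 0 else ψ m) * (if n = 0 then 0 else ψ n)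
    by_cases h1 : m = 0
    · simp [h1]
    by_cases h2 : n = 0
    · simp [h2]
    simp [h1, h2, h.2]

theorem bb3d_locCM {ψ : ℕ → ℝ} (h : bb3d_CM ψ) (p : ℕ) (hp : p.Prime) :
    bb3d_loc p (toAF ψ) = PowerSeries.mk fun k => ψ p ^ k := by
  unfold bb3d_loc
  congr 1
  funext k
  show (if p ^ k = 0 then (0 : ℝ) else ψ (p ^ k)) = ψ p ^ k
  rw [if_neg (pow_ne_zero _ hp.ne_zero), h.pow]

/-- BB3d: the identity if no prime has `(a, b, c) = (1, -1, -1)`. -/
theorem four_eq (q x : ℕ) (a b c : ℕ → ℝ) (ha : RC q a) (hb : RC q b) (hc : RC q c)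
    (h : ∀ p, p.Prime → p ≤ x → ¬ (a p = 1 ∧ b p = -1 ∧ c p = -1)) (n : ℕ) (hn : n ≤ x) :
    (toAF (prin q) * toAF a * (toAF (fun n => b n * c n) * toAF (fun n => a n * (b n * c n)))) n
      = (toAF b * toAF (fun n => a n * b n) * (toAF c * toAF (fun n => a n * c n))) n := by
  rcases Nat.eq_zero_or_pos n with rfl | hn0
  · simp
  have c0 := bb3d_prin q
  have c1 := ha.cm
  have c2 := hb.cm
  have c3 := hc.cm
  have m1 : (toAF (prin q) * toAF a * (toAF (fun n => b n * c n)
      * toAF (fun n => a n * (b n * c n)))).IsMultiplicative :=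
    ((bb3d_mult c0).mul (bb3d_mult c1)).mul
      ((bb3d_mult (c2.mul c3)).mul (bb3d_mult (c1.mul (c2.mul c3))))
  have m2 : (toAF b * toAF (fun n => a n * b n) * (toAF c * toAF (fun n => a n * c n))).IsMultiplicative :=
    ((bb3d_mult c2).mul (bb3d_mult (c1.mul c2))).mul ((bb3d_mult c3).mul (bb3d_mult (c1.mul c3)))
  rw [m1.multiplicative_factorization _ hn0.ne', m2.multiplicative_factorization _ hn0.ne']
  refine Finsupp.prod_congr fun p hp => ?_
  have hpp : p.Prime := Nat.prime_of_mem_primeFactors (by simpa using hp)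
  have hpn : p ∣ n := Nat.dvd_of_mem_primeFactors (by simpa using hp)
  have hpx : p ≤ x := (Nat.le_of_dvd hn0 hpn).trans hn
  have key : bb3d_loc p (toAF (prin q) * toAF a * (toAF (fun n => b n * c n)
      * toAF (fun n => a n * (b n * c n))))
      = bb3d_loc p (toAF b * toAF (fun n => a n * b n) * (toAF c * toAF (fun n => a n * c n))) := by
    simp only [bb3d_loc_mul p hpp]
    rw [bb3d_locCM c0 p hpp, bb3d_locCM c1 p hpp, bb3d_locCM c2 p hpp, bb3d_locCM c3 p hpp,
      bb3d_locCM (c2.mul c3) p hpp, bb3d_locCM (c1.mul (c2.mul c3)) p hpp,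
      bb3d_locCM (c1.mul c2) p hpp, bb3d_locCM (c1.mul c3) p hpp]
    by_cases hq : p.Coprime q
    · have hp1 : prin q p = 1 := if_pos hq
      have va : a p = 1 ∨ a p = -1 := by
        rcases ha.vals p with h1 | h1 | h1
        · exact absurd h1 ((ha.supp p).2 hq)
        · exact Or.inl h1
        · exact Or.inr h1
      have vb : b p = 1 ∨ b p = -1 := by
        rcases hb.vals p with h1 | h1 | h1
        · exact absurd h1 ((hb.supp p).2 hq)
        · exact Or.inl h1
        · exact Or.inr h1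
      have vc : c p = 1 ∨ c p = -1 := by
        rcases hc.vals p with h1 | h1 | h1
        · exact absurd h1 ((hc.supp p).2 hq)
        · exact Or.inl h1
        · exact Or.inr h1
      have hne := h p hpp hpx
      rcases va with h1 | h1 <;> rcases vb with h2 | h2 <;> rcases vc with h3 | h3 <;>
        simp only [h1, h2, h3, hp1, mul_one, mul_neg, neg_neg] <;>
        first | ring1 | exact absurd ⟨h1, h2, h3⟩ hne
    · have hp0 : prin q p = 0 := if_neg hq
      have h1 : a p = 0 := by
        by_contra h1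
        exact hq ((ha.supp p).1 h1)
      have h2 : b p = 0 := by
        by_contra h1
        exact hq ((hb.supp p).1 h1)
      have h3 : c p = 0 := by
        by_contra h1
        exact hq ((hc.supp p).1 h1)
      simp only [h1, h2, h3, hp0, mul_zero]
  have := congrArg (PowerSeries.coeff (n.factorization p)) key
  simpa only [bb3d_loc, PowerSeries.coeff_mk] using this

end Pool.Agent.helper7.OC
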