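import Mathlib
import Pool.Agent.helper7.OC.Defs

/-!
# OC, BB3b (part 1): the hyperbola method and sums of two characters
-/

set_option autoImplicit false

open Finset

namespace Pool.Agent.helper7.OC

theorem bb3b_aux (F : ℕ → ℕ → ℝ) (x s : ℕ) (hs : s ≤ x) :
    ∑ a ∈ Icc 1 x, ∑ b ∈ Icc 1 x, (if a * b ≤ x ∧ a ≤ s then F a b else 0)
      = ∑ a ∈ Icc 1 s, ∑ b ∈ Icc 1 (x / a), F a b := by
  have h1 : ∀ a ∈ Icc 1 x, ∑ b ∈ Icc 1 x, (if a * b ≤ x ∧ a ≤ s then F a b else 0)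
      = if a ≤ s then ∑ b ∈ Icc 1 (x / a), F a b else 0 := by
    intro a ha
    rw [mem_Icc] at ha
    split_ifs with h
    · rw [← sum_filter]
      refine sum_congr ?_ fun _ _ => rfl
      ext b
      simp only [mem_filter, mem_Icc, and_true, h]
      rw [Nat.le_div_iff_mul_le (by omega), mul_comm b a]
      constructor
      · rintro ⟨⟨h2, h3⟩, h4⟩
        exact ⟨h2, h4⟩
      · rintro ⟨h2, h3⟩
        exact ⟨⟨h2, le_trans (Nat.le_mul_of_pos_left b (by omega)) h3⟩, h3⟩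
    · exact sum_eq_zero fun b _ => if_neg fun h2 => h h2.2
  rw [sum_congr rfl h1, ← sum_filter]
  refine sum_congr ?_ fun _ _ => rfl
  ext a
  simp only [mem_filter, mem_Icc]
  omega

/-- Dirichlet's hyperbola method. -/
theorem bb3b_hyp (f g : ArithmeticFunction ℝ) (x s : ℕ) (hs : s * s ≤ x)
    (hs' : x < (s + 1) * (s + 1)) :
    ∑ n ∈ Icc 1 x, (f * g) n = ∑ a ∈ Icc 1 s, f a * ∑ b ∈ Icc 1 (x / a), g b
      + ∑ b ∈ Icc 1 s, g b * ∑ a ∈ Icc 1 (x / b), f a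
      - (∑ a ∈ Icc 1 s, f a) * ∑ b ∈ Icc 1 s, g b := by
  have hsx : s ≤ x := le_trans (Nat.le_mul_self s) hs
  have h0 : ∑ n ∈ Icc 1 x, (f * g) n
      = ∑ a ∈ Icc 1 x, ∑ b ∈ Icc 1 x, if a * b ≤ x then f a * g b else 0 := by
    have := ArithmeticFunction.sum_Ioc_mul_eq_sum_prod_filter f g x
    rw [sum_filter, sum_product] at this
    exact this
  have h1 : ∀ a ∈ Icc 1 x, ∀ b ∈ Icc 1 x, (if a * b ≤ x then f a * g b else 0)
      = (if a * b ≤ x ∧ a ≤ s then f a * g b else 0) + (if b * a ≤ x ∧ b ≤ s then f a * g b else 0)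
        - (if a ≤ s ∧ b ≤ s then f a * g b else 0) := by
    intro a _ b _
    rw [mul_comm b a]
    by_cases h2 : a ≤ s <;> by_cases h3 : b ≤ s
    · have h4 : a * b ≤ x := le_trans (Nat.mul_le_mul h2 h3) hs
      simp [h2, h3, h4]
    · simp [h2, h3]
    · simp [h2, h3]
    · have h4 : ¬ a * b ≤ x := by
        have := Nat.mul_le_mul (show s + 1 ≤ a by omega) (show s + 1 ≤ b by omega)
        omega
      simp [h2, h3, h4]
  rw [h0, sum_congr rfl fun a ha => sum_congr rfl fun b hb => h1 a ha b hb]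
  simp only [sum_add_distrib, sum_sub_distrib]
  rw [bb3b_aux (fun a b => f a * g b) x s hsx, sum_comm,
    show ∑ b ∈ Icc 1 x, ∑ a ∈ Icc 1 x, (if b * a ≤ x ∧ b ≤ s then f a * g b else 0)
      = ∑ b ∈ Icc 1 s, ∑ a ∈ Icc 1 (x / b), f a * g b from
      bb3b_aux (fun b a => f a * g b) x s hsx]
  have h2 : ∑ a ∈ Icc 1 x, ∑ b ∈ Icc 1 x, (if a ≤ s ∧ b ≤ s then f a * g b else 0)
      = (∑ a ∈ Icc 1 s, f a) * ∑ b ∈ Icc 1 s, g b := by
    rw [sum_mul_sum]
    have h3 : (Icc 1 x).filter (fun a => a ≤ s) = Icc 1 s := by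
      ext a
      simp only [mem_filter, mem_Icc]
      omega
    rw [← h3, sum_filter]
    refine sum_congr rfl fun a _ => ?_
    by_cases h4 : a ≤ s
    · simp only [h4, true_and, if_true]
      rw [sum_filter]
    · simp [h4]
  rw [h2]
  congr 2
  · exact sum_congr rfl fun a _ => by rw [mul_sum]
  · exact sum_congr rfl fun b _ => by
      rw [mul_sum]
      exact sum_congr rfl fun a _ => by ring

theorem bb3b_hyp' (f g : ArithmeticFunction ℝ) (x : ℕ) :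
    ∑ n ∈ Icc 1 x, (f * g) n = ∑ a ∈ Icc 1 (Nat.sqrt x), f a * ∑ b ∈ Icc 1 (x / a), g b
      + ∑ b ∈ Icc 1 (Nat.sqrt x), g b * ∑ a ∈ Icc 1 (x / b), f a
      - (∑ a ∈ Icc 1 (Nat.sqrt x), f a) * ∑ b ∈ Icc 1 (Nat.sqrt x), g b :=
  bb3b_hyp f g x _ (Nat.sqrt_le x) (Nat.lt_succ_sqrt x)

end Pool.Agent.helper7.OC
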