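import Mathlib
import Pool.Agent.helper30.OC.Hyp

/-!
# OC, BB3b (part 2): bounds for sums of two characters
-/

set_option autoImplicit false

open Finset

namespace Pool.Agent.helper7.OC

theorem RC.zero' {q : ℕ} {ψ : ℕ → ℝ} (h : RC q ψ) : ψ 0 = 0 := by
  by_contra h0
  have hq : q = 1 := by simpa using (h.supp 0).1 h0
  have h1 : ∀ n, ψ n = 1 := by
    intro n
    have h2 := h.mul 0 n
    rw [zero_mul] at h2
    exact (mul_left_cancel₀ h0 (by rw [mul_one, ← h2])).symm.symm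
  have h2 := h.sum 1
  simp only [h1, sum_const, card_range, nsmul_eq_mul, mul_one] at h2
  subst hq
  norm_num at h2

theorem bb3b_toAF {q : ℕ} {ψ : ℕ → ℝ} (h : RC q ψ) (n : ℕ) : toAF ψ n = ψ n := by
  show (if n = 0 then 0 else ψ n) = ψ n
  split_ifs with h0
  · rw [h0, h.zero']
  · rfl

theorem bb3b_toAF' (ψ : ℕ → ℝ) (n : ℕ) (hn : n ≠ 0) : toAF ψ n = ψ n := by
  show (if n = 0 then 0 else ψ n) = ψ n
  rw [if_neg hn]

theorem bb3b_abs {q : ℕ} {ψ : ℕ → ℝ} (h : RC q ψ) (n : ℕ) : |ψ n| ≤ 1 := by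
  rcases h.vals n with h1 | h1 | h1 <;> rw [h1] <;> norm_num

theorem bb3b_abs' {q : ℕ} {ψ : ℕ → ℝ} (h : RC q ψ) (n : ℕ) : |toAF ψ n| ≤ 1 := by
  rw [bb3b_toAF h]
  exact bb3b_abs h n

theorem bb3b_prin_abs (q n : ℕ) : |toAF (prin q) n| ≤ 1 := by
  show |if n = 0 then (0 : ℝ) else prin q n| ≤ 1
  unfold prin
  split_ifs <;> norm_num

theorem bb3b_shift (f : ℕ → ℝ) (x : ℕ) : ∑ n ∈ Icc 1 x, f n = ∑ k ∈ range x, f (k + 1) := by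
  rw [Finset.range_eq_Ico, Finset.sum_Ico_add' f 0 x 1]
  refine sum_congr ?_ fun _ _ => rfl
  ext a
  simp only [mem_Icc, mem_Ico]
  omega

theorem bb3b_sum {q : ℕ} {ψ : ℕ → ℝ} (h : RC q ψ) (x : ℕ) : |∑ n ∈ Icc 1 x, toAF ψ n| ≤ q := by
  have h1 := h.sum x
  rw [sum_range_succ', h.zero', add_zero] at h1
  rw [sum_congr rfl fun n _ => bb3b_toAF h n, bb3b_shift]
  exact h1

theorem bb3b_sum' {q : ℕ} {ψ : ℕ → ℝ} (h : RC q ψ) (x : ℕ) : |∑ n ∈ Icc 1 x, ψ n| ≤ q := by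
  have := bb3b_sum h x
  rwa [sum_congr rfl fun n _ => bb3b_toAF h n] at this

theorem bb3b_one_le {q : ℕ} {ψ : ℕ → ℝ} (h : RC q ψ) : 1 ≤ q := by
  have h1 := bb3b_sum' h 1
  simp only [Icc_self, sum_singleton, h.one, abs_one] at h1
  exact_mod_cast h1

theorem bb3b_card (s : ℕ) (f : ℕ → ℝ) (K : ℝ) (hf : ∀ n ∈ Icc 1 s, |f n| ≤ K) :
    |∑ n ∈ Icc 1 s, f n| ≤ s * K := by
  refine (abs_sum_le_sum_abs _ _).trans ((sum_le_sum hf).trans ?_)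
  rw [sum_const, Nat.card_Icc, nsmul_eq_mul]
  simp

theorem bb3b_sqrt_le (x : ℕ) : ((Nat.sqrt x : ℕ) : ℝ) ≤ Real.sqrt x := by
  apply Real.le_sqrt_of_sq_le
  have := Nat.sqrt_le' x
  exact_mod_cast this

theorem bb3b_one_le_sqrt (x : ℕ) (hx : 1 ≤ x) : 1 ≤ Real.sqrt x := by
  rw [Real.one_le_sqrt]
  exact_mod_cast hx

/-- The sum of the convolution of two non-principal characters. -/
theorem bb3b_two {q : ℕ} {ψ φ : ℕ → ℝ} (h : RC q ψ) (h' : RC q φ) (x : ℕ) :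
    |∑ n ∈ Icc 1 x, (toAF ψ * toAF φ) n| ≤ 3 * (q : ℝ) ^ 2 * Real.sqrt x := by
  rcases Nat.eq_zero_or_pos x with rfl | hx
  · simp
  have hq : (1 : ℝ) ≤ q := by exact_mod_cast bb3b_one_le h
  set s := Nat.sqrt x
  have hs1 : (s : ℝ) ≤ Real.sqrt x := bb3b_sqrt_le x
  have hx1 : 1 ≤ Real.sqrt x := bb3b_one_le_sqrt x hx
  rw [bb3b_hyp' (toAF ψ) (toAF φ) x]
  have e1 : |∑ a ∈ Icc 1 s, toAF ψ a * ∑ b ∈ Icc 1 (x / a), toAF φ b| ≤ s * q := by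
    refine bb3b_card s _ q fun n _ => ?_
    rw [abs_mul]
    exact (mul_le_mul (bb3b_abs' h n) (bb3b_sum h' _) (abs_nonneg _) zero_le_one).trans (by simp)
  have e2 : |∑ a ∈ Icc 1 s, toAF φ a * ∑ b ∈ Icc 1 (x / a), toAF ψ b| ≤ s * q := by
    refine bb3b_card s _ q fun n _ => ?_
    rw [abs_mul]
    exact (mul_le_mul (bb3b_abs' h' n) (bb3b_sum h _) (abs_nonneg _) zero_le_one).trans (by simp)
  have e3 : |(∑ a ∈ Icc 1 s, toAF ψ a) * ∑ b ∈ Icc 1 s, toAF φ b| ≤ q * q := by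
    rw [abs_mul]
    exact mul_le_mul (bb3b_sum h s) (bb3b_sum h' s) (abs_nonneg _) (by positivity)
  refine (abs_sub _ _).trans ?_
  have e4 := (abs_add_le (∑ a ∈ Icc 1 s, toAF ψ a * ∑ b ∈ Icc 1 (x / a), toAF φ b)
    (∑ a ∈ Icc 1 s, toAF φ a * ∑ b ∈ Icc 1 (x / a), toAF ψ b))
  have e5 : (s : ℝ) * q ≤ (q : ℝ) ^ 2 * Real.sqrt x := by
    calc (s : ℝ) * q ≤ Real.sqrt x * (q * q) := by
          refine mul_le_mul hs1 ?_ (by positivity) (by positivity)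
          nlinarith
      _ = _ := by ring
  have e6 : (q : ℝ) * q ≤ (q : ℝ) ^ 2 * Real.sqrt x := by
    have : 0 ≤ (q : ℝ) * q := by positivity
    nlinarith
  linarith

/-! ### sums of divisor functions with weights -/

/-- The weight `1 / √n`. -/
noncomputable def bw : ArithmeticFunction ℝ := toAF fun n => 1 / Real.sqrt n

theorem bw_apply (n : ℕ) : bw n = 1 / Real.sqrt n := by
  rcases Nat.eq_zero_or_pos n with rfl | h
  · simp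
  · exact bb3b_toAF' _ n h.ne'

theorem bw_sum (m : ℕ) : ∑ b ∈ Icc 1 m, bw b ≤ 2 * Real.sqrt m := by
  induction m with
  | zero => simp
  | succ m ih =>
    rw [← Finset.insert_Icc_right_eq_Icc_add_one (by omega), sum_insert (by simp)]
    have h1 : 0 < Real.sqrt ((m + 1 : ℕ) : ℝ) := by
      rw [Real.sqrt_pos]; positivity
    have h2 : Real.sqrt ((m + 1 : ℕ) : ℝ) ^ 2 = m + 1 := by
      rw [Real.sq_sqrt (by positivity)]; push_cast; ring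
    have h3 : Real.sqrt (m : ℝ) ^ 2 = m := Real.sq_sqrt (by positivity)
    have h4 : 0 ≤ Real.sqrt (m : ℝ) := Real.sqrt_nonneg _
    rw [bw_apply]
    have h5 : 1 / Real.sqrt ((m + 1 : ℕ) : ℝ) ≤ 2 * (Real.sqrt ((m + 1 : ℕ) : ℝ) - Real.sqrt m) := by
      rw [div_le_iff₀ h1]
      nlinarith [sq_nonneg (Real.sqrt ((m + 1 : ℕ) : ℝ) - Real.sqrt m)]
    linarith

theorem bb3b_harm (s : ℕ) (hs : 1 ≤ s) : ∑ a ∈ Icc 1 s, 1 / (a : ℝ) ≤ 1 + Real.log s := by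
  have h := harmonic_le_one_add_log s
  refine le_trans (le_of_eq ?_) h
  rw [harmonic_eq_sum_Icc]
  push_cast
  exact sum_congr rfl fun a _ => by rw [one_div]

theorem bw_conv (s : ℕ) (hs : 1 ≤ s) : ∑ n ∈ Icc 1 s, (bw * bw) n ≤ 2 * Real.sqrt s * (1 + Real.log s) := by
  have h0 : ∑ n ∈ Icc 1 s, (bw * bw) n = ∑ n ∈ Icc 1 s, bw n * ∑ m ∈ Icc 1 (s / n), bw m :=
    ArithmeticFunction.sum_Ioc_mul_eq_sum_sum bw bw s
  rw [h0]
  have h1 : ∀ n ∈ Icc 1 s, bw n * ∑ m ∈ Icc 1 (s / n), bw m ≤ 2 * Real.sqrt s * (1 / (n : ℝ)) := by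
    intro n hn
    rw [mem_Icc] at hn
    have hn0 : (0 : ℝ) < n := by exact_mod_cast hn.1
    have h2 : Real.sqrt ((s / n : ℕ) : ℝ) ≤ Real.sqrt s / Real.sqrt n := by
      rw [← Real.sqrt_div (by positivity)]
      exact Real.sqrt_le_sqrt Nat.cast_div_le
    have h3 : 0 < Real.sqrt (n : ℝ) := Real.sqrt_pos.2 hn0
    have h4 : Real.sqrt (n : ℝ) * Real.sqrt n = n := Real.mul_self_sqrt hn0.le
    rw [bw_apply]
    calc 1 / Real.sqrt n * ∑ m ∈ Icc 1 (s / n), bw m ≤ 1 / Real.sqrt n * (2 * (Real.sqrt s / Real.sqrt n)) := by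
          refine mul_le_mul_of_nonneg_left ?_ (by positivity)
          exact (bw_sum _).trans (by linarith)
      _ = 2 * Real.sqrt s * (1 / (Real.sqrt n * Real.sqrt n)) := by field_simp
      _ = _ := by rw [h4]
  refine (sum_le_sum h1).trans ?_
  rw [← mul_sum]
  exact mul_le_mul_of_nonneg_left (bb3b_harm s hs) (by positivity)

theorem bw_dom (f g : ArithmeticFunction ℝ) (hf : ∀ n, |f n| ≤ 1) (hg : ∀ n, |g n| ≤ 1) (n : ℕ) :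
    |(f * g) n| / Real.sqrt n ≤ (bw * bw) n := by
  rw [ArithmeticFunction.mul_apply, ArithmeticFunction.mul_apply]
  refine le_trans (div_le_div_of_nonneg_right (abs_sum_le_sum_abs _ _) (Real.sqrt_nonneg _)) ?_
  rw [sum_div]
  refine sum_le_sum fun p hp => ?_
  rw [Nat.mem_divisorsAntidiagonal] at hp
  rw [← hp.1, Nat.cast_mul, Real.sqrt_mul (by positivity), bw_apply, bw_apply, abs_mul,
    div_mul_div_comm, one_mul]
  refine div_le_div_of_nonneg_right ?_ (by positivity)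
  exact (mul_le_mul (hf _) (hg _) (abs_nonneg _) zero_le_one).trans (by simp)

theorem bw_main (f g : ArithmeticFunction ℝ) (hf : ∀ n, |f n| ≤ 1) (hg : ∀ n, |g n| ≤ 1) (s : ℕ)
    (hs : 1 ≤ s) :
    ∑ n ∈ Icc 1 s, |(f * g) n| / Real.sqrt n ≤ 2 * Real.sqrt s * (1 + Real.log s) :=
  (sum_le_sum fun n _ => bw_dom f g hf hg n).trans (bw_conv s hs)

/-- A sum of `f * g` against a function that is `O(√)`. -/
theorem bw_use (f g : ArithmeticFunction ℝ) (hf : ∀ n, |f n| ≤ 1) (hg : ∀ n, |g n| ≤ 1) (x : ℕ)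
    (hx : 1 ≤ x) (H : ℕ → ℝ) (K : ℝ) (hK : 0 ≤ K) (hH : ∀ a, 1 ≤ a → a ≤ x → |H a| ≤ K * Real.sqrt (x / a)) :
    |∑ a ∈ Icc 1 (Nat.sqrt x), (f * g) a * H a| ≤ 42 * K * (x : ℝ) ^ (4 / 5 : ℝ) := by
  set s := Nat.sqrt x with hs
  have hs0 : 1 ≤ s := Nat.sqrt_pos.2 hx
  have hsx : s ≤ x := Nat.sqrt_le_self x
  have hx0 : (1 : ℝ) ≤ x := by exact_mod_cast hx
  have hxp : (0 : ℝ) < x := by linarith
  have h1 : ∀ a ∈ Icc 1 s, |(f * g) a * H a| ≤ K * Real.sqrt x * (|(f * g) a| / Real.sqrt a) := by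
    intro a ha
    rw [mem_Icc] at ha
    rw [abs_mul]
    have h2 := hH a ha.1 (ha.2.trans hsx)
    rw [Real.sqrt_div (by positivity)] at h2
    calc |(f * g) a| * |H a| ≤ |(f * g) a| * (K * (Real.sqrt x / Real.sqrt a)) :=
          mul_le_mul_of_nonneg_left h2 (abs_nonneg _)
      _ = _ := by ring
  refine (abs_sum_le_sum_abs _ _).trans ((sum_le_sum h1).trans ?_)
  rw [← mul_sum]
  have h3 := bw_main f g hf hg s hs0
  have h4 : Real.sqrt (s : ℝ) ≤ (x : ℝ) ^ (1 / 4 : ℝ) := by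
    have h5 : Real.sqrt (s : ℝ) ≤ Real.sqrt (Real.sqrt x) := Real.sqrt_le_sqrt (bb3b_sqrt_le x)
    refine h5.trans (le_of_eq ?_)
    rw [Real.sqrt_eq_rpow, Real.sqrt_eq_rpow, ← Real.rpow_mul hxp.le]
    norm_num
  have h5 : Real.log (s : ℝ) ≤ 20 * (x : ℝ) ^ (1 / 20 : ℝ) := by
    have h6 : Real.log (s : ℝ) ≤ Real.log x := Real.log_le_log (by exact_mod_cast hs0) (by exact_mod_cast hsx)
    have h7 := Real.log_le_rpow_div hxp.le (show (0 : ℝ) < 1 / 20 by norm_num)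
    refine h6.trans (h7.trans (le_of_eq ?_))
    field_simp
  have h6 : (1 : ℝ) ≤ (x : ℝ) ^ (1 / 20 : ℝ) := Real.one_le_rpow hx0 (by norm_num)
  have h7 : 0 ≤ Real.log (s : ℝ) := Real.log_nonneg (by exact_mod_cast hs0)
  have h8 : 2 * Real.sqrt s * (1 + Real.log s)
      ≤ 2 * (x : ℝ) ^ (1 / 4 : ℝ) * (21 * (x : ℝ) ^ (1 / 20 : ℝ)) := by
    refine mul_le_mul (by linarith) (by linarith) (by linarith) (by positivity)
  calc K * Real.sqrt x * ∑ i ∈ Icc 1 s, |(f * g) i| / Real.sqrt i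
      ≤ K * Real.sqrt x * (2 * (x : ℝ) ^ (1 / 4 : ℝ) * (21 * (x : ℝ) ^ (1 / 20 : ℝ))) :=
        mul_le_mul_of_nonneg_left (h3.trans h8) (by positivity)
    _ = 42 * K * ((x : ℝ) ^ (1 / 2 : ℝ) * (x : ℝ) ^ (1 / 4 : ℝ) * (x : ℝ) ^ (1 / 20 : ℝ)) := by
        rw [Real.sqrt_eq_rpow]; ring
    _ = _ := by
        rw [← Real.rpow_add hxp, ← Real.rpow_add hxp]
        norm_num

theorem bb3b_floor (x a : ℕ) : Real.sqrt ((x / a : ℕ) : ℝ) ≤ Real.sqrt (x / a) :=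
  Real.sqrt_le_sqrt Nat.cast_div_le

theorem bb3b_s_le (x : ℕ) (hx : 1 ≤ x) : ((Nat.sqrt x : ℕ) : ℝ) ≤ (x : ℝ) ^ (4 / 5 : ℝ) := by
  refine (bb3b_sqrt_le x).trans ?_
  rw [Real.sqrt_eq_rpow]
  exact Real.rpow_le_rpow_of_exponent_le (by exact_mod_cast hx) (by norm_num)

/-- BB3b: four characters. -/
theorem four_small : ∃ C : ℝ, 0 < C ∧ ∀ (q : ℕ) (ψ₁ ψ₂ ψ₃ ψ₄ : ℕ → ℝ), 1 ≤ q → RC q ψ₁ → RC q ψ₂ →
    RC q ψ₃ → RC q ψ₄ → ∀ x : ℕ, 1 ≤ x →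
    |∑ n ∈ Icc 1 x, (toAF ψ₁ * toAF ψ₂ * (toAF ψ₃ * toAF ψ₄)) n| ≤ C * q ^ 4 * (x : ℝ) ^ (4 / 5 : ℝ) := by
  refine ⟨261, by norm_num, fun q ψ₁ ψ₂ ψ₃ ψ₄ hq h1 h2 h3 h4 x hx => ?_⟩
  have hq1 : (1 : ℝ) ≤ q := by exact_mod_cast hq
  set s := Nat.sqrt x with hs
  have hs0 : 1 ≤ s := Nat.sqrt_pos.2 hx
  rw [bb3b_hyp' (toAF ψ₁ * toAF ψ₂) (toAF ψ₃ * toAF ψ₄) x]
  have e1 : |∑ a ∈ Icc 1 s, (toAF ψ₁ * toAF ψ₂) a * ∑ b ∈ Icc 1 (x / a), (toAF ψ₃ * toAF ψ₄) b|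
      ≤ 42 * (3 * (q : ℝ) ^ 2) * (x : ℝ) ^ (4 / 5 : ℝ) := by
    refine bw_use (toAF ψ₁) (toAF ψ₂) (bb3b_abs' h1) (bb3b_abs' h2) x hx _ _ (by positivity) ?_
    intro a _ _
    exact (bb3b_two h3 h4 _).trans (mul_le_mul_of_nonneg_left (bb3b_floor x a) (by positivity))
  have e2 : |∑ a ∈ Icc 1 s, (toAF ψ₃ * toAF ψ₄) a * ∑ b ∈ Icc 1 (x / a), (toAF ψ₁ * toAF ψ₂) b|
      ≤ 42 * (3 * (q : ℝ) ^ 2) * (x : ℝ) ^ (4 / 5 : ℝ) := by
    refine bw_use (toAF ψ₃) (toAF ψ₄) (bb3b_abs' h3) (bb3b_abs' h4) x hx _ _ (by positivity) ?_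
    intro a _ _
    exact (bb3b_two h1 h2 _).trans (mul_le_mul_of_nonneg_left (bb3b_floor x a) (by positivity))
  have e3 : |(∑ a ∈ Icc 1 s, (toAF ψ₁ * toAF ψ₂) a) * ∑ b ∈ Icc 1 s, (toAF ψ₃ * toAF ψ₄) b|
      ≤ 9 * (q : ℝ) ^ 4 * (x : ℝ) ^ (4 / 5 : ℝ) := by
    rw [abs_mul]
    refine (mul_le_mul (bb3b_two h1 h2 s) (bb3b_two h3 h4 s) (abs_nonneg _) (by positivity)).trans ?_
    have : Real.sqrt (s : ℝ) * Real.sqrt s = s := Real.mul_self_sqrt (by positivity)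
    calc 3 * (q : ℝ) ^ 2 * Real.sqrt s * (3 * (q : ℝ) ^ 2 * Real.sqrt s)
        = 9 * (q : ℝ) ^ 4 * (Real.sqrt (s : ℝ) * Real.sqrt s) := by ring
      _ = 9 * (q : ℝ) ^ 4 * s := by rw [this]
      _ ≤ _ := mul_le_mul_of_nonneg_left (bb3b_s_le x hx) (by positivity)
  have e0 : (q : ℝ) ^ 2 * (x : ℝ) ^ (4 / 5 : ℝ) ≤ (q : ℝ) ^ 4 * (x : ℝ) ^ (4 / 5 : ℝ) := by
    refine mul_le_mul_of_nonneg_right ?_ (by positivity)
    exact pow_le_pow_right₀ hq1 (by norm_num)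
  refine (abs_sub _ _).trans ?_
  have e4 := (abs_add_le (∑ a ∈ Icc 1 s, (toAF ψ₁ * toAF ψ₂) a * ∑ b ∈ Icc 1 (x / a), (toAF ψ₃ * toAF ψ₄) b)
    (∑ a ∈ Icc 1 s, (toAF ψ₃ * toAF ψ₄) a * ∑ b ∈ Icc 1 (x / a), (toAF ψ₁ * toAF ψ₂) b))
  linarith

end Pool.Agent.helper7.OC
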