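import Mathlib
import Pool.Agent.helper30.OC.Two
import Pool.Agent.helper30.OC.BB3d

/-!
# OC, BB3a: the lower bound of `L(1, ψ)` (Lambert series)
-/

set_option autoImplicit false

open Finset Filter Topology

namespace Pool.Agent.helper7.OC

/-! ### partial summation -/

theorem bb3a_abel_id (u b : ℕ → ℝ) (n : ℕ) : ∑ i ∈ range n, u i * b i
    = (∑ i ∈ range n, u i) * b n + ∑ i ∈ range n, (∑ j ∈ range (i + 1), u j) * (b i - b (i + 1)) := by
  induction n with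
  | zero => simp
  | succ n ih =>
    rw [sum_range_succ, ih, sum_range_succ (fun i => (∑ j ∈ range (i + 1), u j) * (b i - b (i + 1))),
      sum_range_succ u]
    ring

theorem bb3a_abel (u b : ℕ → ℝ) (K : ℝ) (hu : ∀ n, |∑ i ∈ range n, u i| ≤ K)
    (hb : ∀ i, b (i + 1) ≤ b i) (hb0 : ∀ i, 0 ≤ b i) (n : ℕ) :
    |∑ i ∈ range n, u i * b i| ≤ K * b 0 := by
  rw [bb3a_abel_id]
  refine (abs_add_le _ _).trans ?_
  have h1 : |(∑ i ∈ range n, u i) * b n| ≤ K * b n := by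
    rw [abs_mul, abs_of_nonneg (hb0 n)]
    exact mul_le_mul_of_nonneg_right (hu n) (hb0 n)
  have h2 : |∑ i ∈ range n, (∑ j ∈ range (i + 1), u j) * (b i - b (i + 1))|
      ≤ ∑ i ∈ range n, K * (b i - b (i + 1)) := by
    refine (abs_sum_le_sum_abs _ _).trans (sum_le_sum fun i _ => ?_)
    rw [abs_mul, abs_of_nonneg (sub_nonneg.2 (hb i))]
    exact mul_le_mul_of_nonneg_right (hu _) (sub_nonneg.2 (hb i))
  rw [← mul_sum, sum_range_sub'] at h2
  linarith

/-! ### the divisor sums -/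

/-- `∑_{d ∣ n} ψ d` -/
noncomputable def bb3a_r (ψ : ℕ → ℝ) (n : ℕ) : ℝ := ∑ d ∈ n.divisors, ψ d

theorem bb3a_r_eq {q : ℕ} {ψ : ℕ → ℝ} (h : RC q ψ) (n : ℕ) :
    bb3a_r ψ n = (toAF ψ * (ArithmeticFunction.zeta : ArithmeticFunction ℝ)) n := by
  rw [ArithmeticFunction.coe_mul_zeta_apply]
  exact sum_congr rfl fun d _ => (bb3b_toAF h d).symm

theorem bb3a_r_prod {q : ℕ} {ψ : ℕ → ℝ} (h : RC q ψ) (n : ℕ) (hn : n ≠ 0) :
    bb3a_r ψ n = n.factorization.prod fun p k => bb3a_r ψ (p ^ k) := by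
  have hm : (toAF ψ * (ArithmeticFunction.zeta : ArithmeticFunction ℝ)).IsMultiplicative :=
    (bb3d_mult h.cm).mul ArithmeticFunction.isMultiplicative_zeta.natCast
  rw [bb3a_r_eq h, hm.multiplicative_factorization _ hn]
  exact Finsupp.prod_congr fun p _ => by rw [bb3a_r_eq h]

theorem bb3a_r_pow {q : ℕ} {ψ : ℕ → ℝ} (h : RC q ψ) (p k : ℕ) (hp : p.Prime) :
    0 ≤ bb3a_r ψ (p ^ k) ∧ (Even k → 1 ≤ bb3a_r ψ (p ^ k)) := by
  have h1 : bb3a_r ψ (p ^ k) = ∑ i ∈ range (k + 1), ψ p ^ i := by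
    unfold bb3a_r
    rw [Nat.divisors_prime_pow hp, sum_map]
    exact sum_congr rfl fun i _ => h.cm.pow p i
  rw [h1]
  rcases h.vals p with h2 | h2 | h2
  · rw [h2, sum_range_succ']
    simp
  · rw [h2]
    simp only [one_pow, sum_const, card_range, nsmul_eq_mul, mul_one]
    push_cast
    have : (0 : ℝ) ≤ k := by positivity
    constructor
    · linarith
    · intro _
      linarith
  · rw [h2, neg_one_geom_sum]
    rcases Nat.even_or_odd k with h3 | h3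
    · have h4 : ¬ Even (k + 1) := by
        rw [Nat.not_even_iff_odd]
        exact h3.add_one
      rw [if_neg h4]
      simp
    · have h4 : Even (k + 1) := h3.add_one
      rw [if_pos h4]
      refine ⟨le_rfl, fun h5 => ?_⟩
      exact absurd h5 (Nat.not_even_iff_odd.2 h3)

theorem bb3a_r_nonneg {q : ℕ} {ψ : ℕ → ℝ} (h : RC q ψ) (n : ℕ) : 0 ≤ bb3a_r ψ n := by
  rcases Nat.eq_zero_or_pos n with rfl | hn
  · simp [bb3a_r]
  rw [bb3a_r_prod h n hn.ne']
  exact prod_nonneg fun p hp =>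
    (bb3a_r_pow h p _ (Nat.prime_of_mem_primeFactors (by simpa using hp))).1

theorem bb3a_r_sq {q : ℕ} {ψ : ℕ → ℝ} (h : RC q ψ) (m : ℕ) (hm : m ≠ 0) : 1 ≤ bb3a_r ψ (m ^ 2) := by
  rw [bb3a_r_prod h _ (pow_ne_zero 2 hm)]
  refine prod_induction _ (fun x : ℝ => 1 ≤ x) (fun a b ha hb => ?_) le_rfl fun p hp => ?_
  · have : (1 : ℝ) * 1 ≤ a * b := mul_le_mul ha hb zero_le_one (by linarith)
    linarith
  · refine (bb3a_r_pow h p _ (Nat.prime_of_mem_primeFactors (by simpa using hp))).2 ?_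
    rw [Nat.factorization_pow]
    simp

/-! ### the Lambert kernel -/

theorem bb3a_A (s : ℝ) (d : ℕ) : d * s ^ (d - 1) ≤ ∑ i ∈ range d, (s ^ 2) ^ i := by
  have h2 : ∑ i ∈ range d, (s ^ 2) ^ (d - 1 - i) = ∑ i ∈ range d, (s ^ 2) ^ i :=
    sum_range_reflect (fun i => (s ^ 2) ^ i) d
  have h3 : ∑ i ∈ range d, 2 * s ^ (d - 1) ≤ ∑ i ∈ range d, ((s ^ 2) ^ i + (s ^ 2) ^ (d - 1 - i)) := by
    refine sum_le_sum fun i hi => ?_
    rw [mem_range] at hi
    have h4 : s ^ (d - 1) = s ^ i * s ^ (d - 1 - i) := by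
      rw [← pow_add]
      congr 1
      omega
    rw [← pow_mul, ← pow_mul, mul_comm 2 i, mul_comm 2 (d - 1 - i), pow_mul, pow_mul]
    nlinarith [sq_nonneg (s ^ i - s ^ (d - 1 - i))]
  rw [sum_add_distrib, h2, sum_const, card_range, nsmul_eq_mul] at h3
  linarith

/-- The kernel. -/
noncomputable def bb3a_b (t : ℝ) (d : ℕ) : ℝ := 1 / ((1 - t) * d) - t ^ d / (1 - t ^ d)

theorem bb3a_geom (t : ℝ) (d : ℕ) : 1 - t ^ d = (1 - t) * ∑ i ∈ range d, t ^ i := by
  have := mul_neg_geom_sum t d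
  linarith

theorem bb3a_b_eq (t : ℝ) (d : ℕ) :
    bb3a_b t d = (1 / d - t ^ d / ∑ i ∈ range d, t ^ i) / (1 - t) := by
  unfold bb3a_b
  rw [bb3a_geom t d, sub_div, div_div, div_div, mul_comm (1 - t) (d : ℝ), mul_comm (1 - t)]

theorem bb3a_b_nonneg (t : ℝ) (h0 : 0 < t) (h1 : t < 1) (d : ℕ) (hd : 1 ≤ d) : 0 ≤ bb3a_b t d := by
  rw [bb3a_b_eq t]
  have hd0 : (0 : ℝ) < d := by exact_mod_cast hd
  have h2 : (d : ℝ) * t ^ d ≤ ∑ i ∈ range d, t ^ i := by
    have h3 : ∑ i ∈ range d, t ^ d ≤ ∑ i ∈ range d, t ^ i :=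
      sum_le_sum fun i hi => pow_le_pow_of_le_one h0.le h1.le (mem_range.1 hi).le
    rwa [sum_const, card_range, nsmul_eq_mul] at h3
  have h3 : 0 < ∑ i ∈ range d, t ^ i := lt_of_lt_of_le (by positivity) h2
  refine div_nonneg ?_ (by linarith)
  rw [sub_nonneg, div_le_div_iff₀ h3 hd0]
  linarith

theorem bb3a_b_anti (t : ℝ) (h0 : 0 < t) (h1 : t < 1) (d : ℕ) (hd : 1 ≤ d) :
    bb3a_b t (d + 1) ≤ bb3a_b t d := by
  rw [bb3a_b_eq t, bb3a_b_eq t]
  have hd0 : (0 : ℝ) < d := by exact_mod_cast hd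
  refine div_le_div_of_nonneg_right ?_ (by linarith)
  set s := Real.sqrt t with hs
  have hs2 : s ^ 2 = t := Real.sq_sqrt h0.le
  have hs0 : 0 < s := Real.sqrt_pos.2 h0
  have hs1 : s ≤ 1 := by
    rw [hs, ← Real.sqrt_one]
    exact Real.sqrt_le_sqrt h1.le
  have a1 := bb3a_A s d
  have a2 := bb3a_A s (d + 1)
  rw [Nat.add_sub_cancel] at a2
  rw [hs2] at a1 a2
  set A := ∑ i ∈ range d, t ^ i with hA
  set B := ∑ i ∈ range (d + 1), t ^ i with hB
  have hAp : 0 < A := lt_of_lt_of_le (by positivity) a1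
  have hBp : 0 < B := lt_of_lt_of_le (by positivity) a2
  have hAB : B = A + t ^ d := sum_range_succ _ _
  have hAB' : (1 - t) * A = 1 - t ^ d := (bb3a_geom t d).symm
  have hAB2 : B - t * A = 1 := by
    rw [hAB]
    linarith
  have k1 : (d : ℝ) * (d + 1) * t ^ d ≤ A * B := by
    have k2 : (d : ℝ) * s ^ (d - 1) * (((d + 1 : ℕ) : ℝ) * s ^ d) ≤ A * B :=
      mul_le_mul a1 a2 (by positivity) hAp.le
    refine le_trans ?_ k2
    have k3 : t ^ d ≤ s ^ (d - 1) * s ^ d := by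
      rw [← hs2, ← pow_mul, ← pow_add]
      exact pow_le_pow_of_le_one hs0.le hs1 (by omega)
    push_cast
    calc (d : ℝ) * (d + 1) * t ^ d ≤ (d : ℝ) * (d + 1) * (s ^ (d - 1) * s ^ d) :=
          mul_le_mul_of_nonneg_left k3 (by positivity)
      _ = _ := by ring
  have k3 : t ^ d / A - t ^ (d + 1) / B = t ^ d / (A * B) := by
    rw [div_sub_div _ _ hAp.ne' hBp.ne', pow_succ]
    congr 1
    calc t ^ d * B - A * (t ^ d * t) = t ^ d * (B - t * A) := by ring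
      _ = t ^ d := by rw [hAB2, mul_one]
  have k4 : 1 / (d : ℝ) - 1 / ((d + 1 : ℕ) : ℝ) = 1 / (d * (d + 1)) := by
    push_cast
    field_simp
    ring
  have k5 : t ^ d / (A * B) ≤ 1 / ((d : ℝ) * (d + 1)) := by
    rw [div_le_div_iff₀ (by positivity) (by positivity)]
    linarith
  linarith

theorem bb3a_b_one (t : ℝ) (h1 : t < 1) : bb3a_b t 1 = 1 := by
  unfold bb3a_b
  have : 1 - t ≠ 0 := by linarith
  simp only [Nat.cast_one, mul_one, pow_one]
  field_simp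

/-- the sum against the kernel -/
theorem bb3a_kernel {q : ℕ} {ψ : ℕ → ℝ} (h : RC q ψ) (t : ℝ) (h0 : 0 < t) (h1 : t < 1) (N : ℕ) :
    |∑ d ∈ Icc 1 N, ψ d * bb3a_b t d| ≤ q := by
  rw [bb3b_shift]
  have := bb3a_abel (fun i => ψ (i + 1)) (fun i => bb3a_b t (i + 1)) q (fun n => ?_)
    (fun i => bb3a_b_anti t h0 h1 (i + 1) (by omega)) (fun i => bb3a_b_nonneg t h0 h1 (i + 1) (by omega)) N
  · rwa [zero_add, bb3a_b_one t h1, mul_one] at this
  · rw [← bb3b_shift]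
    exact bb3b_sum' h n

/-- the double sum -/
theorem bb3a_double (ψ : ℕ → ℝ) (t : ℝ) (N : ℕ) : ∑ n ∈ Icc 1 N, bb3a_r ψ n * t ^ n
    = ∑ d ∈ Icc 1 N, ψ d * ∑ k ∈ Icc 1 (N / d), t ^ (d * k) := by
  have h1 : ∀ n ∈ Icc 1 N, bb3a_r ψ n * t ^ n
      = ∑ d ∈ Icc 1 N, ∑ k ∈ Icc 1 N, if d * k = n then ψ d * t ^ (d * k) else 0 := by
    intro n hn
    rw [mem_Icc] at hn
    unfold bb3a_r
    rw [sum_mul, ← Nat.sum_divisorsAntidiagonal (f := fun a b => ψ a * t ^ n),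
      Nat.divisorsAntidiagonal_eq_prod_filter_of_le (show n ≠ 0 by omega) hn.2, sum_filter, sum_product]
    refine sum_congr rfl fun d _ => sum_congr rfl fun k _ => ?_
    split_ifs with h
    · rw [h]
    · rfl
  rw [sum_congr rfl h1, sum_comm]
  refine sum_congr rfl fun d hd => ?_
  rw [mem_Icc] at hd
  rw [sum_comm, mul_sum]
  have h2 : ∀ k ∈ Icc 1 N, ∑ n ∈ Icc 1 N, (if d * k = n then ψ d * t ^ (d * k) else 0)
      = if d * k ≤ N then ψ d * t ^ (d * k) else 0 := by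
    intro k hk
    rw [mem_Icc] at hk
    rw [sum_ite_eq]
    have : d * k ∈ Icc 1 N ↔ d * k ≤ N := by
      rw [mem_Icc]
      exact ⟨fun h => h.2, fun h => ⟨Nat.mul_pos (by omega) (by omega), h⟩⟩
    simp only [this]
  rw [sum_congr rfl h2, ← sum_filter]
  refine sum_congr ?_ fun _ _ => rfl
  ext k
  simp only [mem_filter, mem_Icc]
  rw [Nat.le_div_iff_mul_le (by omega), mul_comm k d]
  constructor
  · rintro ⟨⟨h2, h3⟩, h4⟩
    exact ⟨h2, h4⟩
  · rintro ⟨h2, h3⟩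
    exact ⟨⟨h2, le_trans (Nat.le_mul_of_pos_left k (by omega)) h3⟩, h3⟩

theorem bb3a_inner (t : ℝ) (h0 : 0 < t) (h1 : t < 1) (N d : ℕ) (hd : 1 ≤ d) :
    |∑ k ∈ Icc 1 (N / d), t ^ (d * k) - t ^ d / (1 - t ^ d)| ≤ t ^ N / (1 - t) := by
  have htd : t ^ d < 1 := pow_lt_one₀ h0.le h1 (by omega)
  have hd1 : t ^ d ≤ t := by
    calc t ^ d ≤ t ^ 1 := pow_le_pow_of_le_one h0.le h1.le hd
      _ = t := pow_one t
  have h2 : ∑ k ∈ Icc 1 (N / d), t ^ (d * k) = t ^ d * ∑ k ∈ range (N / d), (t ^ d) ^ k := by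
    rw [bb3b_shift (fun k => t ^ (d * k)), mul_sum]
    refine sum_congr rfl fun k _ => ?_
    rw [pow_mul, pow_succ]
    ring
  have h3 : ∑ k ∈ range (N / d), (t ^ d) ^ k = (1 - (t ^ d) ^ (N / d)) / (1 - t ^ d) := by
    rw [eq_div_iff (by linarith)]
    have := mul_neg_geom_sum (t ^ d) (N / d)
    linarith
  have h4 : ∑ k ∈ Icc 1 (N / d), t ^ (d * k) - t ^ d / (1 - t ^ d)
      = - (t ^ (d * (N / d + 1)) / (1 - t ^ d)) := by
    rw [h2, h3, mul_add, pow_add, mul_one, pow_mul]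
    field_simp
    ring
  rw [h4, abs_neg, abs_of_nonneg (div_nonneg (by positivity) (by linarith))]
  refine div_le_div₀ (by positivity) ?_ (by linarith) (by linarith)
  refine pow_le_pow_of_le_one h0.le h1.le ?_
  exact (Nat.lt_mul_div_succ N (by omega)).le

/-- the main inequality -/
theorem bb3a_ineq {q : ℕ} {ψ : ℕ → ℝ} (h : RC q ψ) (t : ℝ) (h0 : 0 < t) (h1 : t < 1) (N : ℕ) :
    ∑ n ∈ Icc 1 N, bb3a_r ψ n * t ^ n
      ≤ (∑ n ∈ Icc 1 N, ψ n / n) / (1 - t) + q + N * t ^ N / (1 - t) := by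
  rw [bb3a_double]
  have k1 := bb3a_kernel h t h0 h1 N
  have k2 : |∑ d ∈ Icc 1 N, (ψ d * ∑ k ∈ Icc 1 (N / d), t ^ (d * k) - ψ d * (t ^ d / (1 - t ^ d)))|
      ≤ N * (t ^ N / (1 - t)) := by
    refine bb3b_card N _ _ fun d hd => ?_
    rw [mem_Icc] at hd
    rw [← mul_sub, abs_mul]
    have h1t : 0 ≤ t ^ N / (1 - t) := div_nonneg (by positivity) (by linarith)
    exact (mul_le_mul (bb3b_abs h d) (bb3a_inner t h0 h1 N d hd.1) (abs_nonneg _) zero_le_one).trans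
      (by simp)
  rw [sum_sub_distrib] at k2
  have k3 : ∑ d ∈ Icc 1 N, ψ d * (t ^ d / (1 - t ^ d))
      = (∑ n ∈ Icc 1 N, ψ n / n) / (1 - t) - ∑ d ∈ Icc 1 N, ψ d * bb3a_b t d := by
    rw [sum_div, ← sum_sub_distrib]
    refine sum_congr rfl fun d hd => ?_
    unfold bb3a_b
    rw [mem_Icc] at hd
    have : (d : ℝ) ≠ 0 := by
      have : (0 : ℝ) < d := by exact_mod_cast hd.1
      exact this.ne'
    have h1t : 1 - t ≠ 0 := by linarith
    rw [mul_sub, div_div, mul_comm (1 - t) (d : ℝ), mul_one_div]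
    ring
  rw [k3] at k2
  rw [abs_le] at k1 k2
  rw [mul_div_assoc]
  linarith [k1.1, k2.2]

/-- BB3a: lower bound of `L(1, ψ)`. -/
theorem L_lower (q : ℕ) (hq : 1 ≤ q) (ψ : ℕ → ℝ) (h : RC q ψ) : ∃ v : ℝ, 1 / (100 * (q : ℝ)) ≤ v ∧
    ∀ x : ℕ, 1 ≤ x → |∑ n ∈ Icc 1 x, ψ n / n - v| ≤ 2 * q / x := by
  have hq0 : (1 : ℝ) ≤ q := by exact_mod_cast hq
  have hqp : (0 : ℝ) < q := by linarith
  set T : ℕ → ℝ := fun x => ∑ n ∈ Icc 1 x, ψ n / n with hT
  have hcau : ∀ x y : ℕ, x ≤ y → |T y - T x| ≤ 2 * q / (x + 1) := by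
    intro x y hxy
    obtain ⟨n, rfl⟩ := Nat.exists_eq_add_of_le hxy
    have h1 : T (x + n) - T x = ∑ i ∈ range n, ψ (x + i + 1) * (1 / ((x + i + 1 : ℕ) : ℝ)) := by
      rw [hT]
      simp only
      rw [bb3b_shift (fun n => ψ n / n), bb3b_shift (fun n => ψ n / n), sum_range_add]
      rw [add_sub_cancel_left]
      exact sum_congr rfl fun i _ => by rw [mul_one_div]
    rw [h1]
    have h2 := bb3a_abel (fun i => ψ (x + i + 1)) (fun i => 1 / ((x + i + 1 : ℕ) : ℝ)) (2 * q)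
      (fun m => ?_) (fun i => ?_) (fun i => by positivity) n
    · refine h2.trans (le_of_eq ?_)
      push_cast
      ring
    · have h3 : ∑ i ∈ range m, ψ (x + i + 1) = ∑ n ∈ Icc 1 (x + m), ψ n - ∑ n ∈ Icc 1 x, ψ n := by
        rw [bb3b_shift, bb3b_shift, sum_range_add, add_sub_cancel_left]
      rw [h3]
      have h4 := bb3b_sum' h (x + m)
      have h5 := bb3b_sum' h x
      refine (abs_sub _ _).trans ?_
      linarith
    · refine one_div_le_one_div_of_le (by positivity) ?_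
      exact_mod_cast (by omega : x + i + 1 ≤ x + (i + 1) + 1)
  have hlim : Tendsto (fun N : ℕ => 4 * (q : ℝ) / (N + 1)) atTop (𝓝 0) := by
    have := tendsto_one_div_add_atTop_nhds_zero_nat (𝕜 := ℝ)
    have h2 := this.const_mul (4 * (q : ℝ))
    rw [mul_zero] at h2
    refine h2.congr fun N => ?_
    rw [mul_one_div]
  have hC : CauchySeq T := by
    refine cauchySeq_of_le_tendsto_0 (fun N : ℕ => 4 * (q : ℝ) / (N + 1)) (fun n m N hn hm => ?_) hlim
    have h1 := hcau N n hn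
    have h2 := hcau N m hm
    rw [Real.dist_eq]
    have h3 : T n - T m = (T n - T N) - (T m - T N) := by ring
    rw [h3]
    refine (abs_sub _ _).trans ?_
    have : 4 * (q : ℝ) / (N + 1) = 2 * q / (N + 1) + 2 * q / (N + 1) := by ring
    linarith
  obtain ⟨v, hv⟩ := cauchySeq_tendsto_of_complete hC
  refine ⟨v, ?_, ?_⟩
  · set M : ℕ := 4 * q with hM
    set t : ℝ := 1 - 1 / (32 * (q : ℝ) ^ 2) with ht
    have hδ : 1 / (32 * (q : ℝ) ^ 2) ≤ 1 / 32 := by
      refine one_div_le_one_div_of_le (by norm_num) ?_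
      nlinarith
    have hδ0 : 0 < 1 / (32 * (q : ℝ) ^ 2) := by positivity
    have t0 : 0 < t := by rw [ht]; linarith
    have t1 : t < 1 := by rw [ht]; linarith
    have htt : 1 - t = 1 / (32 * (q : ℝ) ^ 2) := by rw [ht]; ring
    have low : (1 : ℝ) / 2 ≤ t ^ (M ^ 2) := by
      have h2 := one_add_mul_le_pow (a := -(1 / (32 * (q : ℝ) ^ 2))) (by linarith) (M ^ 2)
      have h3 : 1 + ((M ^ 2 : ℕ) : ℝ) * -(1 / (32 * (q : ℝ) ^ 2)) = 1 / 2 := by
        rw [hM]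
        push_cast
        field_simp
        ring
      rw [h3] at h2
      rw [ht]
      rwa [← sub_eq_add_neg] at h2
    have low2 : ∀ N : ℕ, M ^ 2 ≤ N → 2 * (q : ℝ) ≤ ∑ n ∈ Icc 1 N, bb3a_r ψ n * t ^ n := by
      intro N hN
      have h2 : ∑ m ∈ Icc 1 M, (1 : ℝ) / 2 ≤ ∑ n ∈ (Icc 1 M).image (fun m => m ^ 2), bb3a_r ψ n * t ^ n := by
        rw [sum_image]
        · refine sum_le_sum fun m hm => ?_
          rw [mem_Icc] at hm
          have h3 := bb3a_r_sq h m (by omega)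
          have h4 : t ^ (M ^ 2) ≤ t ^ (m ^ 2) :=
            pow_le_pow_of_le_one t0.le t1.le (Nat.pow_le_pow_left hm.2 2)
          calc (1 : ℝ) / 2 ≤ 1 * t ^ (m ^ 2) := by linarith
            _ ≤ _ := mul_le_mul_of_nonneg_right h3 (by positivity)
        · intro a _ b _ hab
          exact Nat.pow_left_injective (by norm_num) hab
      have h3 : ∑ n ∈ (Icc 1 M).image (fun m => m ^ 2), bb3a_r ψ n * t ^ n
          ≤ ∑ n ∈ Icc 1 N, bb3a_r ψ n * t ^ n := by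
        refine sum_le_sum_of_subset_of_nonneg ?_ fun n _ _ => mul_nonneg (bb3a_r_nonneg h n) (by positivity)
        intro n hn
        rw [mem_image] at hn
        obtain ⟨m, hm, rfl⟩ := hn
        rw [mem_Icc] at hm ⊢
        exact ⟨Nat.one_le_pow _ _ (by omega), (Nat.pow_le_pow_left hm.2 2).trans hN⟩
      rw [sum_const, Nat.card_Icc, nsmul_eq_mul] at h2
      have h4 : ((M + 1 - 1 : ℕ) : ℝ) * (1 / 2) = 2 * q := by
        rw [Nat.add_sub_cancel, hM]
        push_cast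
        ring
      linarith
    have hup : Tendsto (fun N : ℕ => T N / (1 - t) + q + N * t ^ N / (1 - t)) atTop
        (𝓝 (v / (1 - t) + q + 0 / (1 - t))) := by
      refine ((hv.div_const _).add_const _).add ?_
      exact (tendsto_self_mul_const_pow_of_lt_one t0.le t1).div_const _
    have hge : 2 * (q : ℝ) ≤ v / (1 - t) + q + 0 / (1 - t) := by
      refine ge_of_tendsto hup ?_
      filter_upwards [eventually_ge_atTop (M ^ 2)] with N hN
      exact (low2 N hN).trans (bb3a_ineq h t t0 t1 N)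
    rw [zero_div, add_zero] at hge
    have h5 : (q : ℝ) ≤ v / (1 - t) := by linarith
    rw [le_div_iff₀ (by linarith), htt] at h5
    refine le_trans ?_ h5
    rw [mul_one_div, div_le_div_iff₀ (by positivity) (by positivity)]
    nlinarith
  · intro x hx
    have hx0 : (0 : ℝ) < x := by exact_mod_cast hx
    have h1 : Tendsto (fun y => |T x - T y|) atTop (𝓝 |T x - v|) := (tendsto_const_nhds.sub hv).abs
    refine le_of_tendsto h1 ?_
    filter_upwards [eventually_ge_atTop x] with y hy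
    rw [abs_sub_comm]
    refine (hcau x y hy).trans ?_
    exact div_le_div_of_nonneg_left (by positivity) hx0 (by linarith)

end Pool.Agent.helper7.OC
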