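import Mathlib
import Pool.Agent.helper30.OC.Two

/-!
# OC, BB3b: four_small (in `Two`) and four_main
-/

set_option autoImplicit false

open Finset

namespace Pool.Agent.helper7.OC

/-! ### the principal character -/

theorem bb3b_P_add (q z : ℕ) : ∑ n ∈ Icc 1 (z + q), toAF (prin q) n
    = ∑ n ∈ Icc 1 z, toAF (prin q) n + Nat.totient q := by
  have h1 : Icc 1 (z + q) = Icc 1 z ∪ Ico (z + 1) (z + 1 + q) := by
    ext n
    simp only [mem_Icc, mem_union, mem_Ico]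
    omega
  have h2 : Disjoint (Icc 1 z) (Ico (z + 1) (z + 1 + q)) := by
    rw [disjoint_left]
    intro n hn hn'
    rw [mem_Icc] at hn
    rw [mem_Ico] at hn'
    omega
  rw [h1, sum_union h2, add_right_inj]
  have h3 := Nat.filter_coprime_Ico_eq_totient q (z + 1)
  have h4 : ∀ n ∈ Ico (z + 1) (z + 1 + q), toAF (prin q) n = if q.Coprime n then (1 : ℝ) else 0 := by
    intro n hn
    rw [mem_Ico] at hn
    rw [bb3b_toAF' _ n (by omega)]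
    unfold prin
    simp only [Nat.coprime_comm]
  rw [sum_congr rfl h4, sum_boole, h3]

theorem bb3b_P (q : ℕ) (hq : 1 ≤ q) (z : ℕ) :
    |∑ n ∈ Icc 1 z, toAF (prin q) n - (Nat.totient q : ℝ) / q * z| ≤ q := by
  have hq0 : (0 : ℝ) < q := by exact_mod_cast hq
  have ht : (Nat.totient q : ℝ) / q ≤ 1 := by
    rw [div_le_one hq0]
    exact_mod_cast Nat.totient_le q
  have ht0 : 0 ≤ (Nat.totient q : ℝ) / q := by positivity
  induction z using Nat.strong_induction_on with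
  | _ z ih =>
    rcases lt_or_ge z q with h | h
    · have h1 : 0 ≤ ∑ n ∈ Icc 1 z, toAF (prin q) n := by
        refine sum_nonneg fun n _ => ?_
        show 0 ≤ if n = 0 then (0 : ℝ) else prin q n
        unfold prin
        split_ifs <;> norm_num
      have h2 : ∑ n ∈ Icc 1 z, toAF (prin q) n ≤ z := by
        have := bb3b_card z (toAF (prin q)) 1 fun n _ => bb3b_prin_abs q n
        rw [mul_one] at this
        exact (le_abs_self _).trans this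
      have h3 : (z : ℝ) ≤ q := by exact_mod_cast h.le
      have h4 : (Nat.totient q : ℝ) / q * z ≤ z := by
        have : (0 : ℝ) ≤ z := by positivity
        nlinarith
      have h5 : 0 ≤ (Nat.totient q : ℝ) / q * z := by positivity
      rw [abs_le]
      constructor <;> linarith
    · obtain ⟨w, rfl⟩ : ∃ w, z = w + q := ⟨z - q, by omega⟩
      have h1 := ih w (by omega)
      rw [bb3b_P_add]
      have h2 : (Nat.totient q : ℝ) / q * ((w + q : ℕ) : ℝ) = (Nat.totient q : ℝ) / q * w + Nat.totient q := by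
        push_cast
        field_simp
      rw [h2]
      have h3 : ∑ n ∈ Icc 1 w, toAF (prin q) n + (Nat.totient q : ℝ)
          - ((Nat.totient q : ℝ) / q * w + Nat.totient q)
          = ∑ n ∈ Icc 1 w, toAF (prin q) n - (Nat.totient q : ℝ) / q * w := by ring
      rw [h3]
      exact h1

/-- the bound for `v` -/
theorem bb3b_v {q : ℕ} {ψ : ℕ → ℝ} {v : ℝ} (h : RC q ψ)
    (hv : ∀ x : ℕ, 1 ≤ x → |∑ n ∈ Icc 1 x, ψ n / n - v| ≤ 2 * q / x) : |v| ≤ 3 * q := by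
  have h1 := hv 1 le_rfl
  have hq : (1 : ℝ) ≤ q := by exact_mod_cast bb3b_one_le h
  simp only [Icc_self, sum_singleton, h.one, Nat.cast_one, div_one] at h1
  rw [abs_le] at h1 ⊢
  constructor <;> linarith [h1.1, h1.2]

theorem bb3b_sqrt_ge (x : ℕ) : Real.sqrt x ≤ (Nat.sqrt x : ℝ) + 1 := by
  rw [Real.sqrt_le_left (by positivity)]
  have := (Nat.lt_succ_sqrt x).le
  rw [sq]
  exact_mod_cast this

theorem bb3b_fl (y b : ℕ) (hb : 1 ≤ b) : |((y / b : ℕ) : ℝ) - y / b| ≤ 1 := by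
  have hb0 : (0 : ℝ) < b := by exact_mod_cast hb
  have h1 : ((y / b : ℕ) : ℝ) ≤ y / b := Nat.cast_div_le
  have h2 : (y : ℝ) / b < ((y / b : ℕ) : ℝ) + 1 := by
    rw [div_lt_iff₀ hb0]
    have := Nat.lt_mul_div_succ y (show 0 < b by omega)
    have h3 : (y : ℝ) < ((b * (y / b + 1) : ℕ) : ℝ) := by exact_mod_cast this
    push_cast at h3
    linarith
  rw [abs_le]
  constructor <;> linarith

/-- The sum of the convolution of the principal character and a non-principal one. -/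
theorem bb3b_one_main {q : ℕ} {ψ : ℕ → ℝ} {v : ℝ} (h : RC q ψ)
    (hv : ∀ x : ℕ, 1 ≤ x → |∑ n ∈ Icc 1 x, ψ n / n - v| ≤ 2 * q / x) (y : ℕ) :
    |∑ n ∈ Icc 1 y, (toAF (prin q) * toAF ψ) n - (Nat.totient q : ℝ) / q * v * y|
      ≤ 12 * q * Real.sqrt y := by
  rcases Nat.eq_zero_or_pos y with rfl | hy
  · simp
  have hq : 1 ≤ q := bb3b_one_le h
  have hq0 : (1 : ℝ) ≤ q := by exact_mod_cast hq
  have hqp : (0 : ℝ) < q := by linarith
  have ht : (Nat.totient q : ℝ) / q ≤ 1 := by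
    rw [div_le_one hqp]
    exact_mod_cast Nat.totient_le q
  have ht0 : 0 ≤ (Nat.totient q : ℝ) / q := by positivity
  set c : ℝ := (Nat.totient q : ℝ) / q with hc
  set s := Nat.sqrt y with hs
  have hs0 : 1 ≤ s := Nat.sqrt_pos.2 hy
  have hs1 : (1 : ℝ) ≤ s := by exact_mod_cast hs0
  have hsp : (0 : ℝ) < s := by linarith
  have hy2 : (y : ℝ) ≤ 4 * (s : ℝ) ^ 2 := by
    have h1 := (Nat.lt_succ_sqrt y).le
    have h2 : (y : ℝ) ≤ ((s : ℝ) + 1) * ((s : ℝ) + 1) := by exact_mod_cast h1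
    nlinarith
  rw [bb3b_hyp' (toAF (prin q)) (toAF ψ) y]
  have e1 : |∑ a ∈ Icc 1 s, toAF (prin q) a * ∑ b ∈ Icc 1 (y / a), toAF ψ b| ≤ s * q := by
    refine bb3b_card s _ q fun n _ => ?_
    rw [abs_mul]
    exact (mul_le_mul (bb3b_prin_abs q n) (bb3b_sum h _) (abs_nonneg _) zero_le_one).trans (by simp)
  have e2 : |∑ b ∈ Icc 1 s, (toAF ψ b * ∑ a ∈ Icc 1 (y / b), toAF (prin q) a
      - toAF ψ b * (c * (y / b)))| ≤ s * (2 * q) := by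
    refine bb3b_card s _ _ fun b hb => ?_
    rw [mem_Icc] at hb
    rw [← mul_sub, abs_mul]
    have h1 := bb3b_P q hq (y / b)
    have h2 := bb3b_fl y b hb.1
    rw [← hc] at h1
    have h3 : |∑ a ∈ Icc 1 (y / b), toAF (prin q) a - c * (y / b)| ≤ 2 * q := by
      have h4 : ∑ a ∈ Icc 1 (y / b), toAF (prin q) a - c * ((y : ℝ) / b)
          = (∑ a ∈ Icc 1 (y / b), toAF (prin q) a - c * ((y / b : ℕ) : ℝ))
            + c * (((y / b : ℕ) : ℝ) - (y : ℝ) / b) := by ring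
      rw [h4]
      refine (abs_add_le _ _).trans ?_
      rw [abs_mul, abs_of_nonneg ht0]
      have h5 : c * |((y / b : ℕ) : ℝ) - (y : ℝ) / b| ≤ 1 * 1 :=
        mul_le_mul ht h2 (abs_nonneg _) zero_le_one
      linarith
    exact (mul_le_mul (bb3b_abs' h b) h3 (abs_nonneg _) zero_le_one).trans (by simp)
  have e3 : |(∑ a ∈ Icc 1 s, toAF (prin q) a) * ∑ b ∈ Icc 1 s, toAF ψ b| ≤ s * q := by
    rw [abs_mul]
    refine mul_le_mul ?_ (bb3b_sum h s) (abs_nonneg _) (by positivity)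
    have := bb3b_card s (toAF (prin q)) 1 fun n _ => bb3b_prin_abs q n
    rwa [mul_one] at this
  have e4 : |c * y * (∑ b ∈ Icc 1 s, ψ b / b - v)| ≤ 8 * q * s := by
    rw [abs_mul, abs_mul, abs_of_nonneg ht0, abs_of_nonneg (by positivity : (0 : ℝ) ≤ y)]
    have h1 := hv s hs0
    calc c * y * |∑ b ∈ Icc 1 s, ψ b / b - v| ≤ 1 * (4 * (s : ℝ) ^ 2) * (2 * q / s) :=
          mul_le_mul (mul_le_mul ht hy2 (by positivity) zero_le_one) h1 (abs_nonneg _) (by positivity)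
      _ = _ := by field_simp; ring
  have e5 : ∑ b ∈ Icc 1 s, (toAF ψ b * (c * (y / b))) = c * y * ∑ b ∈ Icc 1 s, ψ b / b := by
    rw [mul_sum]
    refine sum_congr rfl fun b _ => ?_
    rw [bb3b_toAF h]
    ring
  have e6 : (∑ a ∈ Icc 1 s, toAF (prin q) a * ∑ b ∈ Icc 1 (y / a), toAF ψ b)
      + (∑ b ∈ Icc 1 s, toAF ψ b * ∑ a ∈ Icc 1 (y / b), toAF (prin q) a)
      - (∑ a ∈ Icc 1 s, toAF (prin q) a) * (∑ b ∈ Icc 1 s, toAF ψ b) - c * v * y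
      = (∑ a ∈ Icc 1 s, toAF (prin q) a * ∑ b ∈ Icc 1 (y / a), toAF ψ b)
      + (∑ b ∈ Icc 1 s, (toAF ψ b * ∑ a ∈ Icc 1 (y / b), toAF (prin q) a
      - toAF ψ b * (c * (y / b))))
      + c * y * (∑ b ∈ Icc 1 s, ψ b / b - v)
      - (∑ a ∈ Icc 1 s, toAF (prin q) a) * (∑ b ∈ Icc 1 s, toAF ψ b) := by
    rw [sum_sub_distrib, e5]
    ring
  rw [e6]
  have e7 := bb3b_sqrt_le y
  rw [← hs] at e7
  have e8 := abs_sub ((∑ a ∈ Icc 1 s, toAF (prin q) a * ∑ b ∈ Icc 1 (y / a), toAF ψ b)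
      + (∑ b ∈ Icc 1 s, (toAF ψ b * ∑ a ∈ Icc 1 (y / b), toAF (prin q) a
      - toAF ψ b * (c * (y / b))))
      + c * y * (∑ b ∈ Icc 1 s, ψ b / b - v))
      ((∑ a ∈ Icc 1 s, toAF (prin q) a) * (∑ b ∈ Icc 1 s, toAF ψ b))
  have e9 := abs_add_three (∑ a ∈ Icc 1 s, toAF (prin q) a * ∑ b ∈ Icc 1 (y / a), toAF ψ b)
      (∑ b ∈ Icc 1 s, (toAF ψ b * ∑ a ∈ Icc 1 (y / b), toAF (prin q) a
      - toAF ψ b * (c * (y / b))))
      (c * y * (∑ b ∈ Icc 1 s, ψ b / b - v))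
  have e10 : 12 * (q : ℝ) * s ≤ 12 * q * Real.sqrt y := mul_le_mul_of_nonneg_left e7 (by positivity)
  linarith

/-- The sum of `(ψ * φ) n / n`. -/
theorem bb3b_T {q : ℕ} {ψ φ : ℕ → ℝ} {v w : ℝ} (h : RC q ψ) (h' : RC q φ)
    (hv : ∀ x : ℕ, 1 ≤ x → |∑ n ∈ Icc 1 x, ψ n / n - v| ≤ 2 * q / x)
    (hw : ∀ x : ℕ, 1 ≤ x → |∑ n ∈ Icc 1 x, φ n / n - w| ≤ 2 * q / x) (y : ℕ) (hy : 1 ≤ y) :
    |∑ n ∈ Icc 1 y, (toAF ψ * toAF φ) n / n - v * w| ≤ 12 * q ^ 2 / (Nat.sqrt y : ℝ) := by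
  have hq : 1 ≤ q := bb3b_one_le h
  have hq0 : (1 : ℝ) ≤ q := by exact_mod_cast hq
  have hqp : (0 : ℝ) < q := by linarith
  have hyp : (0 : ℝ) < y := by exact_mod_cast hy
  set f : ArithmeticFunction ℝ := toAF fun n => ψ n / n with hf
  set g : ArithmeticFunction ℝ := toAF fun n => φ n / n with hg
  set s := Nat.sqrt y with hs
  have hs0 : 1 ≤ s := Nat.sqrt_pos.2 hy
  have hs1 : (1 : ℝ) ≤ s := by exact_mod_cast hs0
  have hsp : (0 : ℝ) < s := by linarith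
  have hsy : (s : ℝ) * s ≤ y := by exact_mod_cast Nat.sqrt_le y
  have f0 : ∀ n, f n = ψ n / n := by
    intro n
    rcases Nat.eq_zero_or_pos n with rfl | hn
    · simp
    · exact bb3b_toAF' _ n hn.ne'
  have g0 : ∀ n, g n = φ n / n := by
    intro n
    rcases Nat.eq_zero_or_pos n with rfl | hn
    · simp
    · exact bb3b_toAF' _ n hn.ne'
  have h1 : ∑ n ∈ Icc 1 y, (toAF ψ * toAF φ) n / n = ∑ n ∈ Icc 1 y, (f * g) n := by
    refine sum_congr rfl fun n _ => ?_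
    rw [ArithmeticFunction.mul_apply, ArithmeticFunction.mul_apply, sum_div]
    refine sum_congr rfl fun p hp => ?_
    rw [Nat.mem_divisorsAntidiagonal] at hp
    rw [f0, g0, bb3b_toAF h, bb3b_toAF h', ← hp.1, Nat.cast_mul, div_mul_div_comm]
  rw [h1, bb3b_hyp' f g y]
  -- general estimate
  have key : ∀ (α β : ℕ → ℝ) (u : ℝ) (_ : ∀ n, |α n| ≤ 1)
      (_ : ∀ x : ℕ, 1 ≤ x → |∑ n ∈ Icc 1 x, β n / n - u| ≤ 2 * q / x),
      |∑ a ∈ Icc 1 s, (α a / a * ∑ b ∈ Icc 1 (y / a), β b / b - α a / a * u)| ≤ 4 * q / s := by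
    intro α β u hα hβ
    have h2 := bb3b_card s (fun a => α a / a * ∑ b ∈ Icc 1 (y / a), β b / b - α a / a * u)
      (4 * q / y) ?_
    · refine h2.trans ?_
      rw [mul_div_assoc', div_le_div_iff₀ hyp hsp]
      have : 0 ≤ (4 : ℝ) * q := by positivity
      nlinarith
    · intro a ha
      rw [mem_Icc] at ha
      have hap : (0 : ℝ) < a := by exact_mod_cast ha.1
      have hay : a ≤ y := ha.2.trans (Nat.sqrt_le_self y)
      have hd : 1 ≤ y / a := (Nat.one_le_div_iff (by omega)).2 hay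
      have hd0 : (1 : ℝ) ≤ ((y / a : ℕ) : ℝ) := by exact_mod_cast hd
      rw [← mul_sub, abs_mul]
      have h3 := hβ (y / a) hd
      have h4 := bb3b_fl y a ha.1
      rw [abs_le] at h4
      have h5 : (y : ℝ) / a ≤ 2 * ((y / a : ℕ) : ℝ) := by linarith [h4.1]
      have h6 : 2 * (q : ℝ) / ((y / a : ℕ) : ℝ) ≤ 4 * q * a / y := by
        rw [div_le_div_iff₀ (by linarith) hyp]
        rw [div_le_iff₀ hap] at h5
        have : 0 ≤ 2 * (q : ℝ) := by positivity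
        nlinarith
      have h7 : |α a / a| ≤ 1 / a := by
        rw [abs_div, abs_of_pos hap]
        exact div_le_div_of_nonneg_right (hα a) hap.le
      calc |α a / a| * |∑ b ∈ Icc 1 (y / a), β b / b - u| ≤ 1 / a * (4 * q * a / y) :=
            mul_le_mul h7 (h3.trans h6) (abs_nonneg _) (by positivity)
        _ = _ := by field_simp
  have k1 := key ψ φ w (bb3b_abs h) hw
  have k2 := key φ ψ v (bb3b_abs h') hv
  rw [sum_sub_distrib, ← sum_mul] at k1 k2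
  have e1 : ∀ x, ∑ n ∈ Icc 1 x, f n = ∑ n ∈ Icc 1 x, ψ n / n := fun x => sum_congr rfl fun n _ => f0 n
  have e2 : ∀ x, ∑ n ∈ Icc 1 x, g n = ∑ n ∈ Icc 1 x, φ n / n := fun x => sum_congr rfl fun n _ => g0 n
  simp only [e1, e2]
  simp only [f0, g0]
  set T₁ := ∑ n ∈ Icc 1 s, ψ n / (n : ℝ) with hT1
  set T₂ := ∑ n ∈ Icc 1 s, φ n / (n : ℝ) with hT2
  set A := ∑ x ∈ Icc 1 s, ψ x / (x : ℝ) * ∑ b ∈ Icc 1 (y / x), φ b / (b : ℝ) with hA
  set B := ∑ x ∈ Icc 1 s, φ x / (x : ℝ) * ∑ b ∈ Icc 1 (y / x), ψ b / (b : ℝ) with hB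
  have k3 := hv s hs0
  have k4 := hw s hs0
  have k5 : |(T₁ - v) * (T₂ - w)| ≤ 4 * q ^ 2 / s := by
    rw [abs_mul]
    calc |T₁ - v| * |T₂ - w| ≤ (2 * q / s) * (2 * q / s) :=
          mul_le_mul k3 k4 (abs_nonneg _) (by positivity)
      _ ≤ (2 * q / s) * (2 * q) := by
          refine mul_le_mul_of_nonneg_left ?_ (by positivity)
          rw [div_le_iff₀ hsp]
          nlinarith
      _ = _ := by ring
  have k6 : 4 * (q : ℝ) / s ≤ 4 * q ^ 2 / s := by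
    refine div_le_div_of_nonneg_right ?_ hsp.le
    nlinarith
  have k7 : A + B - T₁ * T₂ - v * w = (A - T₁ * w) + (B - T₂ * v) - (T₁ - v) * (T₂ - w) := by ring
  rw [k7]
  have k8 := abs_sub ((A - T₁ * w) + (B - T₂ * v)) ((T₁ - v) * (T₂ - w))
  have k9 := abs_add_le (A - T₁ * w) (B - T₂ * v)
  have k10 : 12 * (q : ℝ) ^ 2 / s = 3 * (4 * q ^ 2 / s) := by ring
  rw [k10]
  linarith

theorem bb3b_ratio (x : ℕ) (hx : 1 ≤ x) :
    (x : ℝ) / (Nat.sqrt (Nat.sqrt x) : ℝ) ≤ 4 * (x : ℝ) ^ (4 / 5 : ℝ) := by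
  set s := Nat.sqrt x with hs
  set r := Nat.sqrt s with hr
  have hx0 : (1 : ℝ) ≤ x := by exact_mod_cast hx
  have hxp : (0 : ℝ) < x := by linarith
  have hs0 : 1 ≤ s := Nat.sqrt_pos.2 hx
  have hr0 : 1 ≤ r := Nat.sqrt_pos.2 hs0
  have hrp : (1 : ℝ) ≤ r := by exact_mod_cast hr0
  have h1 : (x : ℝ) ≤ 4 * (s : ℝ) ^ 2 := by
    have h1 := (Nat.lt_succ_sqrt x).le
    have h2 : (x : ℝ) ≤ ((s : ℝ) + 1) * ((s : ℝ) + 1) := by exact_mod_cast h1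
    have h3 : (1 : ℝ) ≤ s := by exact_mod_cast hs0
    nlinarith
  have h2 : (s : ℝ) ≤ 4 * (r : ℝ) ^ 2 := by
    have h1 := (Nat.lt_succ_sqrt s).le
    have h2 : (s : ℝ) ≤ ((r : ℝ) + 1) * ((r : ℝ) + 1) := by exact_mod_cast h1
    nlinarith
  have h3 : (x : ℝ) ≤ (4 * (r : ℝ)) ^ 4 := by
    have : (s : ℝ) ^ 2 ≤ (4 * (r : ℝ) ^ 2) ^ 2 := pow_le_pow_left₀ (by positivity) h2 2
    nlinarith [sq_nonneg ((r : ℝ) ^ 2)]
  have h4 : (x : ℝ) ^ (1 / 4 : ℝ) ≤ 4 * r := by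
    have h5 := Real.rpow_le_rpow hxp.le h3 (show (0 : ℝ) ≤ 1 / 4 by norm_num)
    refine h5.trans (le_of_eq ?_)
    rw [← Real.rpow_natCast, ← Real.rpow_mul (by positivity)]
    norm_num
  rw [div_le_iff₀ (by linarith)]
  calc (x : ℝ) = (x : ℝ) ^ (3 / 4 : ℝ) * (x : ℝ) ^ (1 / 4 : ℝ) := by
        rw [← Real.rpow_add hxp]; norm_num
    _ ≤ (x : ℝ) ^ (4 / 5 : ℝ) * (4 * r) := by
        refine mul_le_mul ?_ h4 (by positivity) (by positivity)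
        exact Real.rpow_le_rpow_of_exponent_le hx0 (by norm_num)
    _ = _ := by ring

theorem bb3b_s32 (x : ℕ) (hx : 1 ≤ x) :
    (Nat.sqrt x : ℝ) * Real.sqrt (Nat.sqrt x : ℝ) ≤ (x : ℝ) ^ (4 / 5 : ℝ) := by
  have hx0 : (1 : ℝ) ≤ x := by exact_mod_cast hx
  have hxp : (0 : ℝ) < x := by linarith
  have h1 := bb3b_sqrt_le x
  have h2 : Real.sqrt (Nat.sqrt x : ℝ) ≤ Real.sqrt (Real.sqrt x) := Real.sqrt_le_sqrt h1
  refine (mul_le_mul h1 h2 (by positivity) (by positivity)).trans ?_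
  rw [Real.sqrt_eq_rpow, Real.sqrt_eq_rpow, ← Real.rpow_mul hxp.le, ← Real.rpow_add hxp]
  exact Real.rpow_le_rpow_of_exponent_le hx0 (by norm_num)

/-- BB3c: the principal character and three characters. -/
theorem four_main : ∃ C : ℝ, 0 < C ∧ ∀ (q : ℕ) (ψ₁ ψ₂ ψ₃ : ℕ → ℝ) (v₁ v₂ v₃ : ℝ), 1 ≤ q → RC q ψ₁ →
    RC q ψ₂ → RC q ψ₃ →
    (∀ x : ℕ, 1 ≤ x → |∑ n ∈ Icc 1 x, ψ₁ n / n - v₁| ≤ 2 * q / x) →
    (∀ x : ℕ, 1 ≤ x → |∑ n ∈ Icc 1 x, ψ₂ n / n - v₂| ≤ 2 * q / x) →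
    (∀ x : ℕ, 1 ≤ x → |∑ n ∈ Icc 1 x, ψ₃ n / n - v₃| ≤ 2 * q / x) →
    ∀ x : ℕ, 1 ≤ x →
    |∑ n ∈ Icc 1 x, (toAF (prin q) * toAF ψ₁ * (toAF ψ₂ * toAF ψ₃)) n
      - (Nat.totient q : ℝ) / q * v₁ * v₂ * v₃ * x| ≤ C * q ^ 6 * (x : ℝ) ^ (4 / 5 : ℝ) := by
  refine ⟨945, by norm_num, fun q ψ₁ ψ₂ ψ₃ v₁ v₂ v₃ hq h1 h2 h3 hv1 hv2 hv3 x hx => ?_⟩
  have hq0 : (1 : ℝ) ≤ q := by exact_mod_cast hq
  have hqp : (0 : ℝ) < q := by linarith
  have hx0 : (1 : ℝ) ≤ x := by exact_mod_cast hx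
  have hxp : (0 : ℝ) < x := by linarith
  have ht : (Nat.totient q : ℝ) / q ≤ 1 := by
    rw [div_le_one hqp]
    exact_mod_cast Nat.totient_le q
  have ht0 : 0 ≤ (Nat.totient q : ℝ) / q := by positivity
  set c : ℝ := (Nat.totient q : ℝ) / q with hc
  set s := Nat.sqrt x with hs
  have hs0 : 1 ≤ s := Nat.sqrt_pos.2 hx
  have hs1 : (1 : ℝ) ≤ s := by exact_mod_cast hs0
  have hsx : s ≤ x := Nat.sqrt_le_self x
  have hcv : |c * v₁| ≤ 3 * q := by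
    rw [abs_mul, abs_of_nonneg ht0]
    calc c * |v₁| ≤ 1 * (3 * q) := mul_le_mul ht (bb3b_v h1 hv1) (abs_nonneg _) zero_le_one
      _ = _ := one_mul _
  set X : ℝ := (x : ℝ) ^ (4 / 5 : ℝ) with hX
  have hXp : 0 ≤ X := by positivity
  rw [bb3b_hyp' (toAF (prin q) * toAF ψ₁) (toAF ψ₂ * toAF ψ₃) x]
  have e1 : |∑ a ∈ Icc 1 s, (toAF (prin q) * toAF ψ₁) a * ∑ b ∈ Icc 1 (x / a), (toAF ψ₂ * toAF ψ₃) b|
      ≤ 42 * (3 * (q : ℝ) ^ 2) * X := by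
    refine bw_use (toAF (prin q)) (toAF ψ₁) (bb3b_prin_abs q) (bb3b_abs' h1) x hx _ _ (by positivity) ?_
    intro a _ _
    exact (bb3b_two h2 h3 _).trans (mul_le_mul_of_nonneg_left (bb3b_floor x a) (by positivity))
  have e2 : |∑ b ∈ Icc 1 s, (toAF ψ₂ * toAF ψ₃) b *
      (∑ a ∈ Icc 1 (x / b), (toAF (prin q) * toAF ψ₁) a - c * v₁ * (x / b))|
      ≤ 42 * (15 * (q : ℝ)) * X := by
    refine bw_use (toAF ψ₂) (toAF ψ₃) (bb3b_abs' h2) (bb3b_abs' h3) x hx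
      (fun b => ∑ a ∈ Icc 1 (x / b), (toAF (prin q) * toAF ψ₁) a - c * v₁ * (x / b)) _ (by positivity) ?_
    intro b hb hbx
    have hbp : (0 : ℝ) < b := by exact_mod_cast hb
    have k1 := bb3b_one_main h1 hv1 (x / b)
    rw [← hc] at k1
    have k2 := bb3b_fl x b hb
    have k3 : 1 ≤ Real.sqrt ((x : ℝ) / b) := by
      rw [Real.one_le_sqrt, one_le_div hbp]
      exact_mod_cast hbx
    have k4 : ∑ a ∈ Icc 1 (x / b), (toAF (prin q) * toAF ψ₁) a - c * v₁ * ((x : ℝ) / b)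
        = (∑ a ∈ Icc 1 (x / b), (toAF (prin q) * toAF ψ₁) a - c * v₁ * ((x / b : ℕ) : ℝ))
          + c * v₁ * (((x / b : ℕ) : ℝ) - x / b) := by ring
    show |∑ a ∈ Icc 1 (x / b), (toAF (prin q) * toAF ψ₁) a - c * v₁ * ((x : ℝ) / b)| ≤ _
    rw [k4]
    refine (abs_add_le _ _).trans ?_
    have k5 : |c * v₁ * (((x / b : ℕ) : ℝ) - x / b)| ≤ 3 * q * 1 := by
      rw [abs_mul]
      exact mul_le_mul hcv k2 (abs_nonneg _) (by positivity)
    have k6 : 12 * (q : ℝ) * Real.sqrt ((x / b : ℕ) : ℝ) ≤ 12 * q * Real.sqrt ((x : ℝ) / b) :=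
      mul_le_mul_of_nonneg_left (bb3b_floor x b) (by positivity)
    have k7 : 3 * (q : ℝ) * 1 ≤ 3 * q * Real.sqrt ((x : ℝ) / b) :=
      mul_le_mul_of_nonneg_left k3 (by positivity)
    linarith
  have e3 : |c * v₁ * x * (∑ b ∈ Icc 1 s, (toAF ψ₂ * toAF ψ₃) b / b - v₂ * v₃)|
      ≤ 144 * (q : ℝ) ^ 3 * X := by
    rw [abs_mul, abs_mul, abs_of_pos hxp]
    have k1 := bb3b_T h2 h3 hv2 hv3 s hs0
    have k2 := bb3b_ratio x hx
    rw [← hs, ← hX] at k2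
    calc |c * v₁| * x * |∑ b ∈ Icc 1 s, (toAF ψ₂ * toAF ψ₃) b / b - v₂ * v₃|
        ≤ (3 * q) * x * (12 * q ^ 2 / (Nat.sqrt s : ℝ)) :=
          mul_le_mul (mul_le_mul_of_nonneg_right hcv hxp.le) k1 (abs_nonneg _) (by positivity)
      _ = 36 * (q : ℝ) ^ 3 * (x / (Nat.sqrt s : ℝ)) := by ring
      _ ≤ 36 * (q : ℝ) ^ 3 * (4 * X) := mul_le_mul_of_nonneg_left k2 (by positivity)
      _ = _ := by ring
  have e4 : |(∑ a ∈ Icc 1 s, (toAF (prin q) * toAF ψ₁) a) * ∑ b ∈ Icc 1 s, (toAF ψ₂ * toAF ψ₃) b|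
      ≤ 45 * (q : ℝ) ^ 3 * X := by
    rw [abs_mul]
    have k1 := bb3b_one_main h1 hv1 s
    rw [← hc] at k1
    have k2 : |∑ a ∈ Icc 1 s, (toAF (prin q) * toAF ψ₁) a| ≤ 15 * q * s := by
      have k3 : ∑ a ∈ Icc 1 s, (toAF (prin q) * toAF ψ₁) a
          = (∑ a ∈ Icc 1 s, (toAF (prin q) * toAF ψ₁) a - c * v₁ * s) + c * v₁ * s := by ring
      rw [k3]
      refine (abs_add_le _ _).trans ?_
      have k4 : |c * v₁ * s| ≤ 3 * q * s := by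
        rw [abs_mul, abs_of_pos (by linarith : (0 : ℝ) < s)]
        exact mul_le_mul_of_nonneg_right hcv (by linarith)
      have k5 : Real.sqrt (s : ℝ) ≤ s := by
        rw [Real.sqrt_le_left (by linarith)]
        nlinarith
      have k6 : 12 * (q : ℝ) * Real.sqrt (s : ℝ) ≤ 12 * q * s :=
        mul_le_mul_of_nonneg_left k5 (by positivity)
      linarith
    calc |∑ a ∈ Icc 1 s, (toAF (prin q) * toAF ψ₁) a| * |∑ b ∈ Icc 1 s, (toAF ψ₂ * toAF ψ₃) b|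
        ≤ (15 * q * s) * (3 * (q : ℝ) ^ 2 * Real.sqrt s) :=
          mul_le_mul k2 (bb3b_two h2 h3 s) (abs_nonneg _) (by positivity)
      _ = 45 * (q : ℝ) ^ 3 * (s * Real.sqrt s) := by ring
      _ ≤ _ := mul_le_mul_of_nonneg_left (bb3b_s32 x hx) (by positivity)
  have e5 : ∑ b ∈ Icc 1 s, (toAF ψ₂ * toAF ψ₃) b *
      (∑ a ∈ Icc 1 (x / b), (toAF (prin q) * toAF ψ₁) a - c * v₁ * (x / b))
      = ∑ b ∈ Icc 1 s, (toAF ψ₂ * toAF ψ₃) b * ∑ a ∈ Icc 1 (x / b), (toAF (prin q) * toAF ψ₁) a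
        - c * v₁ * x * ∑ b ∈ Icc 1 s, (toAF ψ₂ * toAF ψ₃) b / b := by
    rw [mul_sum, ← sum_sub_distrib]
    refine sum_congr rfl fun b _ => ?_
    ring
  set A := ∑ a ∈ Icc 1 s, (toAF (prin q) * toAF ψ₁) a * ∑ b ∈ Icc 1 (x / a), (toAF ψ₂ * toAF ψ₃) b
  set B := ∑ b ∈ Icc 1 s, (toAF ψ₂ * toAF ψ₃) b * ∑ a ∈ Icc 1 (x / b), (toAF (prin q) * toAF ψ₁) a
  set D := (∑ a ∈ Icc 1 s, (toAF (prin q) * toAF ψ₁) a) * ∑ b ∈ Icc 1 s, (toAF ψ₂ * toAF ψ₃) b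
  set T := ∑ b ∈ Icc 1 s, (toAF ψ₂ * toAF ψ₃) b / (b : ℝ)
  rw [e5] at e2
  have e6 : A + B - D - c * v₁ * v₂ * v₃ * x
      = A + (B - c * v₁ * x * T) + c * v₁ * x * (T - v₂ * v₃) - D := by ring
  rw [e6]
  have e7 := abs_sub (A + (B - c * v₁ * x * T) + c * v₁ * x * (T - v₂ * v₃)) D
  have e8 := abs_add_three A (B - c * v₁ * x * T) (c * v₁ * x * (T - v₂ * v₃))
  have p1 : (q : ℝ) * X ≤ (q : ℝ) ^ 6 * X :=
    mul_le_mul_of_nonneg_right (by simpa using pow_le_pow_right₀ hq0 (show 1 ≤ 6 by norm_num)) hXp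
  have p2 : (q : ℝ) ^ 2 * X ≤ (q : ℝ) ^ 6 * X :=
    mul_le_mul_of_nonneg_right (pow_le_pow_right₀ hq0 (by norm_num)) hXp
  have p3 : (q : ℝ) ^ 3 * X ≤ (q : ℝ) ^ 6 * X :=
    mul_le_mul_of_nonneg_right (pow_le_pow_right₀ hq0 (by norm_num)) hXp
  linarith

end Pool.Agent.helper7.OC
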