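import Mathlib
import Pool.Agent.helper30.OC.Two
import Pool.Agent.helper30.OC.BB3d

/-!
# OC: extension of the modulus of a real character
-/

set_option autoImplicit false

open Finset

namespace Pool.Agent.helper7.OC

/-- Remove one prime. -/
theorem RC.ext_prime {q : ℕ} {ψ : ℕ → ℝ} (h : RC q ψ) (p : ℕ) (hp : p.Prime) :
    RC (q * p) fun n => ψ n * prin p n := by
  have c0 := h.cm.mul (bb3d_prin p)
  refine ⟨c0.1, c0.2, fun n => ?_, fun n => ?_, fun x => ?_⟩
  · unfold prin
    split_ifs
    · rw [mul_one]
      exact h.vals n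
    · left
      rw [mul_zero]
  · unfold prin
    rw [Nat.coprime_mul_iff_right, ← h.supp]
    split_ifs with h1
    · rw [mul_one]
      exact ⟨fun h2 => ⟨h2, h1⟩, fun h2 => h2.1⟩
    · rw [mul_zero]
      exact ⟨fun h2 => absurd rfl h2, fun h2 => absurd h2.2 h1⟩
  · have e0 : ∀ x : ℕ, ∑ n ∈ range (x + 1), ψ n = ∑ n ∈ Icc 1 x, ψ n := by
      intro x
      rw [sum_range_succ', h.zero', add_zero, ← bb3b_shift]
    have e1 : ∑ n ∈ range (x + 1), ψ n * prin p n
        = ∑ n ∈ Icc 1 x, ψ n - ψ p * ∑ k ∈ Icc 1 (x / p), ψ k := by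
      rw [sum_range_succ', h.zero', zero_mul, add_zero, ← bb3b_shift (fun n => ψ n * prin p n)]
      have e2 : ∑ n ∈ Icc 1 x, ψ n * prin p n
          = ∑ n ∈ Icc 1 x, (ψ n - if p ∣ n then ψ n else 0) := by
        refine sum_congr rfl fun n _ => ?_
        unfold prin
        by_cases h1 : p ∣ n
        · rw [if_neg, if_pos h1]
          · ring
          · intro h2
            exact (Nat.Prime.coprime_iff_not_dvd hp).1 h2.symm h1
        · rw [if_pos, if_neg h1]
          · ring
          · exact ((Nat.Prime.coprime_iff_not_dvd hp).2 h1).symm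
      rw [e2, sum_sub_distrib, sub_right_inj, ← sum_filter, mul_sum]
      have e3 : (Icc 1 x).filter (fun n => p ∣ n) = (Icc 1 (x / p)).image fun k => p * k := by
        ext n
        simp only [mem_filter, mem_Icc, mem_image]
        constructor
        · rintro ⟨⟨h1, h2⟩, k, rfl⟩
          refine ⟨k, ⟨?_, ?_⟩, rfl⟩
          · rcases Nat.eq_zero_or_pos k with rfl | h3
            · omega
            · exact h3
          · rw [Nat.le_div_iff_mul_le hp.pos, mul_comm]
            exact h2
        · rintro ⟨k, ⟨h1, h2⟩, rfl⟩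
          rw [Nat.le_div_iff_mul_le hp.pos, mul_comm] at h2
          exact ⟨⟨Nat.mul_pos hp.pos (by omega), h2⟩, dvd_mul_right p k⟩
      rw [e3, sum_image]
      · exact sum_congr rfl fun k _ => h.mul p k
      · intro a _ b _ hab
        exact Nat.eq_of_mul_eq_mul_left hp.pos hab
    rw [e1]
    have h1 := bb3b_sum' h x
    have h2 := bb3b_sum' h (x / p)
    have h3 : |ψ p * ∑ k ∈ Icc 1 (x / p), ψ k| ≤ q := by
      rw [abs_mul]
      exact (mul_le_mul (bb3b_abs h p) h2 (abs_nonneg _) zero_le_one).trans (by simp)
    refine (abs_sub _ _).trans ?_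
    push_cast
    have h4 : (2 : ℝ) ≤ p := by exact_mod_cast hp.two_le
    have h5 : (0 : ℝ) ≤ q := by positivity
    nlinarith

/-- Extension of the modulus. -/
theorem RC.ext {q : ℕ} {ψ : ℕ → ℝ} (h : RC q ψ) (t : ℕ) (ht : 1 ≤ t) :
    RC (q * t) fun n => ψ n * prin t n := by
  induction t using Nat.strong_induction_on with
  | _ t ih =>
    rcases Nat.eq_or_lt_of_le ht with h1 | h1
    · subst h1
      have : (fun n => ψ n * prin 1 n) = ψ := by
        funext n
        unfold prin
        rw [if_pos (Nat.coprime_one_right n), mul_one]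
      rw [this, mul_one]
      exact h
    · have hp : (Nat.minFac t).Prime := Nat.minFac_prime (by omega)
      obtain ⟨s, hs⟩ := Nat.minFac_dvd t
      have hs0 : 1 ≤ s := by
        rcases Nat.eq_zero_or_pos s with h2 | h2
        · rw [h2, mul_zero] at hs
          omega
        · exact h2
      have hst : s < t := by
        rw [hs]
        have := hp.two_le
        nlinarith
      have h2 := (ih s hst hs0).ext_prime _ hp
      have h3 : (fun n => ψ n * prin s n * prin (Nat.minFac t) n) = fun n => ψ n * prin t n := by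
        funext n
        rw [mul_assoc]
        congr 1
        have h4 : n.Coprime t ↔ n.Coprime (Nat.minFac t) ∧ n.Coprime s := by
          conv_lhs => rw [hs]
          exact Nat.coprime_mul_iff_right
        unfold prin
        by_cases h5 : n.Coprime s
        · by_cases h6 : n.Coprime (Nat.minFac t)
          · rw [if_pos h5, if_pos h6, if_pos (h4.2 ⟨h6, h5⟩), mul_one]
          · rw [if_neg h6, if_neg fun h7 => h6 (h4.1 h7).1, mul_zero]
        · rw [if_neg h5, if_neg fun h7 => h5 (h4.1 h7).2, zero_mul]
      rw [h3] at h2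
      have h4 : q * s * Nat.minFac t = q * t := by
        conv_rhs => rw [hs]
        ring
      rwa [h4] at h2

end Pool.Agent.helper7.OC
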