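import Mathlib
import Pool.Agent.helper30.OC.BB3a
import Pool.Agent.helper30.OC.BB3b
import Pool.Agent.helper30.OC.BB3d
import Pool.Agent.helper30.OC.Ext
import Pool.Agent.helper12.OC.BB3e

/-!
# OC, BB3f: the forced prime
-/

set_option autoImplicit false

open Finset

namespace Pool.Agent.helper7.OC

theorem bb3f_core : ∃ K : ℝ, 0 < K ∧ ∀ (q : ℕ) (a b c : ℕ → ℝ), 1 ≤ q → RC q a → RC q b → RC q c →
    RC q (fun n => a n * b n) → RC q (fun n => a n * c n) → RC q (fun n => b n * c n) →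
    RC q (fun n => a n * (b n * c n)) → ∀ x : ℕ, 1 ≤ x →
    (∀ p, p.Prime → p ≤ x → ¬ (a p = 1 ∧ b p = -1 ∧ c p = -1)) → (x : ℝ) ≤ K * (q : ℝ) ^ 50 := by
  obtain ⟨C₁, hC₁, H₁⟩ := four_small
  obtain ⟨C₂, hC₂, H₂⟩ := four_main
  refine ⟨(1000000 * (C₁ + C₂)) ^ 5, by positivity,
    fun q a b c hq1 ha hb hc hab hac hbc habc x hx1 hno => ?_⟩
  have hxr : (1 : ℝ) ≤ x := by exact_mod_cast hx1
  have hxp : (0 : ℝ) < x := by linarith
  have hqr : (1 : ℝ) ≤ q := by exact_mod_cast hq1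
  have hqp : (0 : ℝ) < q := by linarith
  have heq : ∑ n ∈ Icc 1 x, (toAF (prin q) * toAF a * (toAF (fun n => b n * c n)
      * toAF (fun n => a n * (b n * c n)))) n
      = ∑ n ∈ Icc 1 x, (toAF b * toAF (fun n => a n * b n) * (toAF c * toAF (fun n => a n * c n))) n :=
    sum_congr rfl fun n hn => four_eq q x a b c ha hb hc hno n (mem_Icc.1 hn).2
  obtain ⟨v₁, l₁, e₁⟩ := L_lower q hq1 a ha
  obtain ⟨v₂, l₂, e₂⟩ := L_lower q hq1 _ hbc
  obtain ⟨v₃, l₃, e₃⟩ := L_lower q hq1 _ habc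
  have k1 := H₂ q a (fun n => b n * c n) (fun n => a n * (b n * c n)) v₁ v₂ v₃ hq1 ha hbc habc e₁ e₂ e₃ x hx1
  have k2 := H₁ q b (fun n => a n * b n) c (fun n => a n * c n) hq1 hb hab hc hac x hx1
  rw [heq] at k1
  set S := ∑ n ∈ Icc 1 x, (toAF b * toAF (fun n => a n * b n) * (toAF c * toAF (fun n => a n * c n))) n
  have hφ : 1 / (q : ℝ) ≤ (Nat.totient q : ℝ) / q := by
    refine div_le_div_of_nonneg_right ?_ hqp.le
    exact_mod_cast Nat.totient_pos.2 hq1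
  have hl : 0 < 1 / (100 * (q : ℝ)) := by positivity
  have k3 : 1 / (q : ℝ) * (1 / (100 * q)) * (1 / (100 * q)) * (1 / (100 * q)) * x
      ≤ (Nat.totient q : ℝ) / q * v₁ * v₂ * v₃ * x := by
    have p1 : 0 ≤ v₁ := hl.le.trans l₁
    have p2 : 0 ≤ v₂ := hl.le.trans l₂
    have p3 : 0 ≤ v₃ := hl.le.trans l₃
    gcongr
  rw [abs_le] at k1 k2
  set X : ℝ := (x : ℝ) ^ (4 / 5 : ℝ) with hX
  have hXp : 0 < X := by positivity
  have k4 : C₁ * (q : ℝ) ^ 4 * X ≤ C₁ * (q : ℝ) ^ 6 * X := by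
    have : (q : ℝ) ^ 4 ≤ (q : ℝ) ^ 6 := pow_le_pow_right₀ hqr (by norm_num)
    gcongr
  have k5 : 1 / (q : ℝ) * (1 / (100 * q)) * (1 / (100 * q)) * (1 / (100 * q)) * x
      ≤ (C₁ + C₂) * (q : ℝ) ^ 6 * X := by
    have := k1.1
    have := k2.2
    linarith
  have k6 : (x : ℝ) ≤ 1000000 * (C₁ + C₂) * (q : ℝ) ^ 10 * X := by
    have e : 1 / (q : ℝ) * (1 / (100 * q)) * (1 / (100 * q)) * (1 / (100 * q)) * x
        = x / (1000000 * (q : ℝ) ^ 4) := by
      field_simp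
      norm_num
    rw [e, div_le_iff₀ (by positivity)] at k5
    calc (x : ℝ) ≤ _ := k5
      _ = _ := by ring
  have k7 : (x : ℝ) ^ (1 / 5 : ℝ) ≤ 1000000 * (C₁ + C₂) * (q : ℝ) ^ 10 := by
    have e : (x : ℝ) = (x : ℝ) ^ (1 / 5 : ℝ) * X := by
      rw [hX, ← Real.rpow_add hxp]
      norm_num
    rw [e] at k6
    exact le_of_mul_le_mul_right k6 hXp
  have k8 : (x : ℝ) ≤ (1000000 * (C₁ + C₂) * (q : ℝ) ^ 10) ^ 5 := by
    have e : (x : ℝ) = ((x : ℝ) ^ (1 / 5 : ℝ)) ^ 5 := by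
      rw [← Real.rpow_natCast, ← Real.rpow_mul hxp.le]
      norm_num
    rw [e]
    exact pow_le_pow_left₀ (by positivity) k7 5
  calc (x : ℝ) ≤ _ := k8
    _ = _ := by ring

/-- BB3f: the forced prime (uses BB3a - BB3e). -/
theorem forced (t : ℕ) (ht : 1 ≤ t) : ∃ C : ℕ, ∀ m : ℕ, Squarefree m → m % 8 = 7 →
    ∃ ℓ : ℕ, ℓ.Prime ∧ ℓ % 8 = 5 ∧ ¬ ℓ ∣ t ∧ jacobiSym (ℓ : ℤ) m = -1 ∧ ℓ ≤ C * m ^ C := by
  obtain ⟨K, hK, H⟩ := bb3f_core
  obtain ⟨C, hC⟩ := exists_nat_gt (K * (8 * t : ℝ) ^ 50)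
  refine ⟨C + 50, fun m hs hm => ?_⟩
  obtain ⟨a, b, c, ha, hb, hc, hab, hac, hbc, habc, hch⟩ := chars m hs hm
  by_contra hcon
  push Not at hcon
  set x : ℕ := (C + 50) * m ^ (C + 50) with hx
  have hm1 : 1 ≤ m := by omega
  have hmr : (1 : ℝ) ≤ m := by exact_mod_cast hm1
  have hx1 : 1 ≤ x := Nat.mul_pos (by omega) (Nat.pow_pos hm1)
  have hpp : ∀ n, prin t n * prin t n = prin t n := by
    intro n
    unfold prin
    split_ifs <;> simp
  have e1 : (fun n => a n * prin t n * (b n * prin t n)) = fun n => a n * b n * prin t n := by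
    funext n
    calc _ = a n * b n * (prin t n * prin t n) := by ring
      _ = _ := by rw [hpp]
  have e2 : (fun n => a n * prin t n * (c n * prin t n)) = fun n => a n * c n * prin t n := by
    funext n
    calc _ = a n * c n * (prin t n * prin t n) := by ring
      _ = _ := by rw [hpp]
  have e3 : (fun n => b n * prin t n * (c n * prin t n)) = fun n => b n * c n * prin t n := by
    funext n
    calc _ = b n * c n * (prin t n * prin t n) := by ring
      _ = _ := by rw [hpp]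
  have e4 : (fun n => a n * prin t n * (b n * prin t n * (c n * prin t n)))
      = fun n => a n * (b n * c n) * prin t n := by
    funext n
    calc _ = a n * (b n * c n) * (prin t n * prin t n * prin t n) := by ring
      _ = _ := by rw [hpp, hpp]
  have h1 := H (8 * m * t) (fun n => a n * prin t n) (fun n => b n * prin t n) (fun n => c n * prin t n)
    (Nat.mul_pos (by omega) ht) (ha.ext t ht) (hb.ext t ht) (hc.ext t ht) (by rw [e1]; exact hab.ext t ht)
    (by rw [e2]; exact hac.ext t ht) (by rw [e3]; exact hbc.ext t ht) (by rw [e4]; exact habc.ext t ht)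
    x hx1 ?_
  · have k10 : (C : ℝ) * (m : ℝ) ^ 50 ≤ x := by
      rw [hx]
      push_cast
      have : (m : ℝ) ^ 50 ≤ (m : ℝ) ^ (C + 50) := pow_le_pow_right₀ hmr (by omega)
      have h2 : (C : ℝ) ≤ C + 50 := by linarith
      gcongr
    have k11 : (K * (8 * t : ℝ) ^ 50) * (m : ℝ) ^ 50 < C * (m : ℝ) ^ 50 :=
      mul_lt_mul_of_pos_right hC (by positivity)
    have k12 : K * ((8 * m * t : ℕ) : ℝ) ^ 50 = (K * (8 * t : ℝ) ^ 50) * (m : ℝ) ^ 50 := by
      push_cast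
      ring
    rw [k12] at h1
    linarith
  · rintro p hp hpx ⟨h1, h2, h3⟩
    have hpt : p.Coprime t := by
      by_contra h4
      have : prin t p = 0 := if_neg h4
      rw [this, mul_zero] at h1
      exact zero_ne_one h1
    have h5 : prin t p = 1 := if_pos hpt
    rw [h5, mul_one] at h1 h2 h3
    have h4 := hch p hp h1 h2 h3
    exact absurd hpx (not_le.2 (hcon p hp h4.1 ((Nat.Prime.coprime_iff_not_dvd hp).1 hpt) h4.2))

end Pool.Agent.helper7.OC
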